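import Mathlib

/-!
# A positive proportion of the residue classes of monic polynomials is irreducible
-/

namespace Pool.Agent.MP_4960c7.NS

open Polynomial

private theorem minpoly_as {K : Type} [Field K] {F : Type} [Field F] [Algebra F K] {g : ℕ} {x : K}
    (hx : IsIntegral F x) (hd : (minpoly F x).natDegree = g) :
    (X ^ g + ∑ i : Fin g, C ((minpoly F x).coeff i) * X ^ (i : ℕ) : F[X]) = minpoly F x := by
  have h1 := (minpoly.monic hx).as_sum
  rw [hd] at h1
  rw [Fin.sum_univ_eq_sum_range (fun i => C ((minpoly F x).coeff i) * X ^ i) g]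
  exact h1.symm

private theorem fiber {K : Type} [Field K] [Fintype K] [DecidableEq K] {F : Type} [Field F] [Algebra F K] {g : ℕ}
    (P : F[X]) (hP : P.Monic) (hd : P.natDegree ≤ g) (s : Finset K) (hs : ∀ x ∈ s, aeval x P = 0) : s.card ≤ g := by
  have h0 : P.map (algebraMap F K) ≠ 0 := (hP.map _).ne_zero
  have hsub : s.val ⊆ (P.map (algebraMap F K)).roots := by
    intro x hx
    rw [mem_roots h0, IsRoot.def, eval_map, ← aeval_def]
    exact hs x hx
  have h1 := card_le_degree_of_subset_roots hsub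
  rw [natDegree_map] at h1
  exact h1.trans hd

theorem irr_count (g : ℕ) (hg : 0 < g) (ℓ : ℕ) (hℓ : ℓ.Prime) (hL : 2 * g ^ 2 ≤ ℓ) :
    1 / (2 * (g : ℝ)) * (ℓ : ℝ) ^ g ≤
      ({c : Fin g → ZMod ℓ | Irreducible (X ^ g + ∑ i : Fin g, C (c i) * X ^ (i : ℕ) : (ZMod ℓ)[X])}.ncard : ℝ) := by
  classical
  haveI : Fact ℓ.Prime := ⟨hℓ⟩
  let K := GaloisField ℓ g
  haveI : Fintype K := Fintype.ofFinite K
  have hcard : Fintype.card K = ℓ ^ g := by
    rw [← Nat.card_eq_fintype_card]
    exact GaloisField.card ℓ g hg.ne'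
  have hint : ∀ x : K, IsIntegral (ZMod ℓ) x := fun x => Algebra.IsIntegral.isIntegral x
  have hdeg : ∀ x : K, (minpoly (ZMod ℓ) x).natDegree ≤ g := fun x => by
    have h1 := minpoly.natDegree_le (A := ZMod ℓ) x
    rwa [GaloisField.finrank ℓ hg.ne'] at h1
  let A : Finset K := Finset.univ.filter fun x => (minpoly (ZMod ℓ) x).natDegree = g
  let B : Finset K := Finset.univ.filter fun x => ¬ (minpoly (ZMod ℓ) x).natDegree = g
  have hAB : A.card + B.card = ℓ ^ g := by
    rw [← hcard, ← Finset.card_univ]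
    exact Finset.card_filter_add_card_filter_not _
  -- elements of full degree
  let fA : K → (Fin g → ZMod ℓ) := fun x i => (minpoly (ZMod ℓ) x).coeff i
  have hA : A.card ≤ g * ({c : Fin g → ZMod ℓ |
      Irreducible (X ^ g + ∑ i : Fin g, C (c i) * X ^ (i : ℕ) : (ZMod ℓ)[X])}.ncard) := by
    have h1 : A.card ≤ g * (A.image fA).card := by
      refine Finset.card_le_mul_card_image A g fun c hc => ?_
      obtain ⟨x, hx, rfl⟩ := Finset.mem_image.1 hc
      rw [Finset.mem_filter] at hx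
      refine fiber (minpoly (ZMod ℓ) x) (minpoly.monic (hint x)) (hdeg x) _ fun y hy => ?_
      rw [Finset.mem_filter, Finset.mem_filter] at hy
      have h2 : minpoly (ZMod ℓ) y = minpoly (ZMod ℓ) x := by
        rw [← minpoly_as (hint y) hy.1.2, ← minpoly_as (hint x) hx.2]
        have h3 : ∀ i : Fin g, (minpoly (ZMod ℓ) y).coeff i = (minpoly (ZMod ℓ) x).coeff i := fun i => congrFun hy.2 i
        simp only [h3]
      rw [← h2]
      exact minpoly.aeval _ _
    refine h1.trans (Nat.mul_le_mul_left g ?_)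
    rw [← Set.ncard_coe_finset]
    refine Set.ncard_le_ncard ?_ (Set.toFinite _)
    intro c hc
    rw [Finset.mem_coe, Finset.mem_image] at hc
    obtain ⟨x, hx, rfl⟩ := hc
    rw [Finset.mem_filter] at hx
    show Irreducible (X ^ g + ∑ i : Fin g, C ((minpoly (ZMod ℓ) x).coeff i) * X ^ (i : ℕ) : (ZMod ℓ)[X])
    rw [minpoly_as (hint x) hx.2]
    exact minpoly.irreducible (hint x)
  -- elements of smaller degree
  let fB : K → ℕ × (Fin (g - 1) → ZMod ℓ) := fun x =>
    ((minpoly (ZMod ℓ) x).natDegree, fun i => (minpoly (ZMod ℓ) x).coeff i)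
  have hB : B.card ≤ g * (g * ℓ ^ (g - 1)) := by
    have h1 : B.card ≤ g * (B.image fB).card := by
      refine Finset.card_le_mul_card_image B g fun c hc => ?_
      obtain ⟨x, hx, rfl⟩ := Finset.mem_image.1 hc
      rw [Finset.mem_filter] at hx
      refine fiber (minpoly (ZMod ℓ) x) (minpoly.monic (hint x)) (hdeg x) _ fun y hy => ?_
      rw [Finset.mem_filter, Finset.mem_filter] at hy
      have hd : (minpoly (ZMod ℓ) y).natDegree = (minpoly (ZMod ℓ) x).natDegree := congrArg Prod.fst hy.2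
      have h2 : minpoly (ZMod ℓ) y = minpoly (ZMod ℓ) x := by
        refine (minpoly_as (hint y) hd).symm.trans (Eq.trans ?_ (minpoly_as (hint x) rfl))
        refine congrArg _ (Finset.sum_congr rfl fun i _ => ?_)
        have h4 : (i : ℕ) < g - 1 := by
          have := i.2
          have := hdeg x
          have := hx.2
          omega
        have h3 := congrFun (congrArg Prod.snd hy.2) ⟨i, h4⟩
        have h5 : (minpoly (ZMod ℓ) y).coeff i = (minpoly (ZMod ℓ) x).coeff i := h3
        rw [h5]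
      rw [← h2]
      exact minpoly.aeval _ _
    refine h1.trans (Nat.mul_le_mul_left g ?_)
    have h6 : B.image fB ⊆ Finset.range g ×ˢ (Finset.univ : Finset (Fin (g - 1) → ZMod ℓ)) := by
      intro c hc
      obtain ⟨x, hx, rfl⟩ := Finset.mem_image.1 hc
      rw [Finset.mem_filter] at hx
      rw [Finset.mem_product, Finset.mem_range]
      exact ⟨lt_of_le_of_ne (hdeg x) hx.2, Finset.mem_univ _⟩
    refine (Finset.card_le_card h6).trans ?_
    rw [Finset.card_product, Finset.card_range, Finset.card_univ, Fintype.card_fun, ZMod.card, Fintype.card_fin]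
  have hgl : g * (g * ℓ ^ (g - 1)) * 2 ≤ ℓ ^ g := by
    obtain ⟨k, rfl⟩ : ∃ k, g = k + 1 := ⟨g - 1, by omega⟩
    rw [Nat.add_sub_cancel, pow_succ ℓ k]
    calc (k + 1) * ((k + 1) * ℓ ^ k) * 2 = ℓ ^ k * (2 * (k + 1) ^ 2) := by ring
      _ ≤ ℓ ^ k * ℓ := Nat.mul_le_mul_left _ hL
  have hfin : ℓ ^ g ≤ 2 * (g * ({c : Fin g → ZMod ℓ |
      Irreducible (X ^ g + ∑ i : Fin g, C (c i) * X ^ (i : ℕ) : (ZMod ℓ)[X])}.ncard)) := by omega
  have hg0 : (0 : ℝ) < g := by exact_mod_cast hg
  have hfin' : (ℓ : ℝ) ^ g ≤ 2 * (g * ({c : Fin g → ZMod ℓ |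
      Irreducible (X ^ g + ∑ i : Fin g, C (c i) * X ^ (i : ℕ) : (ZMod ℓ)[X])}.ncard : ℝ)) := by exact_mod_cast hfin
  rw [div_mul_eq_mul_div, one_mul, div_le_iff₀ (by positivity)]
  linarith

end Pool.Agent.MP_4960c7.NS
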