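import Pool.Agent.Lib.MP_4960c7_ag.AR.Up

/-!
# Few vectors with divisibility conditions in the box have q^(g-i) | b_i^2
-/

namespace Pool.Agent.MP_4960c7.NS

open Polynomial Pool.Agent.MP_4960c7.AR

private theorem tt_sq {q : ℕ} (hq : 0 < q) : tt q ^ 2 ≤ 4 * q := by
  unfold tt
  have h1 : 1 ≤ Nat.sqrt q := Nat.sqrt_pos.2 hq
  have h2 : Nat.sqrt q * Nat.sqrt q ≤ q := Nat.sqrt_le q
  nlinarith

private theorem sq_card (q g k t : ℕ) (hk : k ≤ g) (hq : 0 < q) (ht : t ^ 2 ≤ 4 * q) :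
    ((Finset.Icc (-((4 ^ g * t ^ k : ℕ) : ℤ)) ((4 ^ g * t ^ k : ℕ) : ℤ)).filter
      (fun x : ℤ => (q : ℤ) ^ k ∣ x ^ 2)).card ≤ 2 * (64 ^ g + 1) := by
  classical
  have hqg : (0 : ℤ) < (q : ℤ) ^ k := by positivity
  have h1 : Set.InjOn (fun x : ℤ => (decide (0 ≤ x), (x ^ 2 / (q : ℤ) ^ k).toNat))
      ((Finset.Icc (-((4 ^ g * t ^ k : ℕ) : ℤ)) ((4 ^ g * t ^ k : ℕ) : ℤ)).filter
      (fun x : ℤ => (q : ℤ) ^ k ∣ x ^ 2)) := by
    intro x hx y hy hxy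
    rw [Finset.mem_coe, Finset.mem_filter] at hx hy
    simp only [Prod.mk.injEq, decide_eq_decide] at hxy
    obtain ⟨hs, hm⟩ := hxy
    have hx0 : 0 ≤ x ^ 2 / (q : ℤ) ^ k := Int.ediv_nonneg (sq_nonneg x) hqg.le
    have hy0 : 0 ≤ y ^ 2 / (q : ℤ) ^ k := Int.ediv_nonneg (sq_nonneg y) hqg.le
    have h2 : x ^ 2 / (q : ℤ) ^ k = y ^ 2 / (q : ℤ) ^ k := by
      rw [← Int.toNat_of_nonneg hx0, ← Int.toNat_of_nonneg hy0, hm]
    have h3 : x ^ 2 = y ^ 2 := by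
      rw [← Int.ediv_mul_cancel hx.2, ← Int.ediv_mul_cancel hy.2, h2]
    rcases sq_eq_sq_iff_eq_or_eq_neg.1 h3 with h4 | h4
    · exact h4
    · by_cases h5 : 0 ≤ x
      · have h6 := hs.1 h5
        omega
      · have h6 : ¬ 0 ≤ y := fun h => h5 (hs.2 h)
        omega
  have h2 : ∀ x ∈ ((Finset.Icc (-((4 ^ g * t ^ k : ℕ) : ℤ)) ((4 ^ g * t ^ k : ℕ) : ℤ)).filter
      (fun x : ℤ => (q : ℤ) ^ k ∣ x ^ 2)), (fun x : ℤ => (decide (0 ≤ x), (x ^ 2 / (q : ℤ) ^ k).toNat)) x ∈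
      (Finset.univ : Finset Bool) ×ˢ Finset.range (64 ^ g + 1) := by
    intro x hx
    rw [Finset.mem_filter, Finset.mem_Icc] at hx
    obtain ⟨⟨hx1, hx2⟩, -⟩ := hx
    rw [Finset.mem_product]
    refine ⟨Finset.mem_univ _, ?_⟩
    rw [Finset.mem_range, Nat.lt_succ_iff, Int.toNat_le]
    have h3 : x ^ 2 ≤ (((4 ^ g * t ^ k : ℕ) : ℤ)) ^ 2 := by
      rw [← sq_abs x]
      exact pow_le_pow_left₀ (abs_nonneg x) (_root_.abs_le.2 ⟨hx1, hx2⟩) 2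
    have h4 : (4 ^ g * t ^ k) ^ 2 ≤ 64 ^ g * q ^ k := by
      calc (4 ^ g * t ^ k) ^ 2 = 16 ^ g * (t ^ 2) ^ k := by
            rw [mul_pow, ← pow_mul, ← pow_mul, ← pow_mul, mul_comm g 2, mul_comm k 2, pow_mul 4 2 g]
            norm_num
        _ ≤ 16 ^ g * (4 * q) ^ k := Nat.mul_le_mul_left _ (Nat.pow_le_pow_left ht k)
        _ = 16 ^ g * 4 ^ k * q ^ k := by rw [mul_pow, ← mul_assoc]
        _ ≤ 16 ^ g * 4 ^ g * q ^ k :=
            Nat.mul_le_mul_right _ (Nat.mul_le_mul_left _ (Nat.pow_le_pow_right (by norm_num) hk))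
        _ = 64 ^ g * q ^ k := by
            rw [← mul_pow]
            norm_num
    have h5 : x ^ 2 ≤ (64 ^ g : ℤ) * (q : ℤ) ^ k := by
      refine h3.trans ?_
      exact_mod_cast h4
    push_cast
    exact Int.ediv_le_of_le_mul hqg h5
  have h3 := Finset.card_le_card_of_injOn _ h2 h1
  rw [Finset.card_product, Finset.card_range] at h3
  simpa using h3

/-- the multiples of `d` in `[-B, B]` -/
private theorem mul_card (d B : ℕ) (hd : 0 < d) (hB : d ≤ B) :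
    (((Finset.Icc (-(B : ℤ)) B).filter fun x : ℤ => (d : ℤ) ∣ x).card : ℝ) ≤ 3 * (B : ℝ) / d := by
  have h1 : ((Finset.Icc (-(B : ℤ)) B).filter fun x : ℤ => (d : ℤ) ∣ x) ⊆
      (Finset.Icc (-((B / d : ℕ) : ℤ)) ((B / d : ℕ) : ℤ)).image fun x => (d : ℤ) * x := by
    intro x hx
    rw [Finset.mem_filter, Finset.mem_Icc] at hx
    obtain ⟨⟨hx1, hx2⟩, y, rfl⟩ := hx
    rw [Finset.mem_image]
    refine ⟨y, ?_, rfl⟩
    have hd' : (0 : ℤ) < d := by exact_mod_cast hd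
    rw [Finset.mem_Icc, Int.natCast_div]
    have h2 : y ≤ (B : ℤ) / d := (Int.le_ediv_iff_mul_le hd').2 (by rw [mul_comm]; exact hx2)
    have h3 : -y ≤ (B : ℤ) / d := (Int.le_ediv_iff_mul_le hd').2 (by
      have : -y * (d : ℤ) = -((d : ℤ) * y) := by ring
      rw [this]
      omega)
    constructor
    · omega
    · exact h2
  have h2 := (Finset.card_le_card h1).trans Finset.card_image_le
  rw [Int.card_Icc] at h2
  have h3 : (((B / d : ℕ) : ℤ) + 1 - -((B / d : ℕ) : ℤ)).toNat = 2 * (B / d) + 1 := by omega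
  rw [h3] at h2
  have hd' : (0 : ℝ) < d := by exact_mod_cast hd
  rw [le_div_iff₀ hd']
  have h4 : (B / d) * d ≤ B := Nat.div_mul_le_self _ _
  have h5 : ((Finset.Icc (-(B : ℤ)) B).filter fun x : ℤ => (d : ℤ) ∣ x).card * d ≤ 3 * B := by
    calc _ ≤ (2 * (B / d) + 1) * d := Nat.mul_le_mul_right _ h2
      _ = 2 * ((B / d) * d) + d := by ring
      _ ≤ 3 * B := by omega
  exact_mod_cast h5

theorem square_div_e (g : ℕ) : ∃ C : ℝ, 0 ≤ C ∧ ∀ (i₀ : Fin g) (q p : ℕ), 0 < q → 0 < p → ∀ e : Fin g → ℕ,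
    (∀ i, p ^ e i ≤ tt q ^ (g - (i : ℕ))) →
    ({b : Fin g → ℤ | (∀ i, |b i| ≤ bd q g i) ∧ (∀ i, (p : ℤ) ^ e i ∣ b i) ∧
        (q : ℤ) ^ (g - (i₀ : ℕ)) ∣ b i₀ ^ 2}.ncard : ℝ) * ((tt q : ℝ) ^ (g - (i₀ : ℕ)) / (p : ℝ) ^ e i₀) ≤
      C * ∏ i : Fin g, ((tt q : ℝ) ^ (g - (i : ℕ)) / (p : ℝ) ^ e i) := by
  classical
  refine ⟨2 * (64 ^ g + 1) * (3 * 4 ^ g) ^ g, by positivity, fun i₀ q p hq hp e he => ?_⟩
  have ht2 : tt q ^ 2 ≤ 4 * q := tt_sq hq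
  have hp0 : (0 : ℝ) < p := by exact_mod_cast hp
  have ht0 : (0 : ℝ) < tt q := by
    unfold tt
    positivity
  let F : Fin g → Finset ℤ := fun i => if i = i₀ then
    (Finset.Icc (-(bd q g i₀ : ℤ)) (bd q g i₀)).filter (fun x : ℤ => (q : ℤ) ^ (g - (i₀ : ℕ)) ∣ x ^ 2)
    else (Finset.Icc (-(bd q g i : ℤ)) (bd q g i)).filter (fun x : ℤ => ((p ^ e i : ℕ) : ℤ) ∣ x)
  have hsub : {b : Fin g → ℤ | (∀ i, |b i| ≤ bd q g i) ∧ (∀ i, (p : ℤ) ^ e i ∣ b i) ∧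
        (q : ℤ) ^ (g - (i₀ : ℕ)) ∣ b i₀ ^ 2} ⊆ ((Fintype.piFinset F : Finset (Fin g → ℤ)) : Set (Fin g → ℤ)) := by
    rintro b ⟨hb, hb1, hb2⟩
    rw [Finset.mem_coe, Fintype.mem_piFinset]
    intro i
    simp only [F]
    split_ifs with hi
    · rw [hi, Finset.mem_filter, Finset.mem_Icc]
      exact ⟨_root_.abs_le.1 (hb i₀), hb2⟩
    · rw [Finset.mem_filter, Finset.mem_Icc]
      refine ⟨_root_.abs_le.1 (hb i), ?_⟩
      push_cast
      exact hb1 i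
  have hcard := Set.ncard_le_ncard hsub (Finset.finite_toSet _)
  rw [Set.ncard_coe_finset, Fintype.card_piFinset] at hcard
  have hcard' : ({b : Fin g → ℤ | (∀ i, |b i| ≤ bd q g i) ∧ (∀ i, (p : ℤ) ^ e i ∣ b i) ∧
        (q : ℤ) ^ (g - (i₀ : ℕ)) ∣ b i₀ ^ 2}.ncard : ℝ) ≤ ∏ i, ((F i).card : ℝ) := by exact_mod_cast hcard
  have h0 : 0 ≤ (tt q : ℝ) ^ (g - (i₀ : ℕ)) / (p : ℝ) ^ e i₀ := by positivity
  refine (mul_le_mul_of_nonneg_right hcard' h0).trans ?_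
  have h1 : (∏ i, ((F i).card : ℝ)) * ((tt q : ℝ) ^ (g - (i₀ : ℕ)) / (p : ℝ) ^ e i₀) =
      ∏ i, (((F i).card : ℝ) * (if i = i₀ then ((tt q : ℝ) ^ (g - (i₀ : ℕ)) / (p : ℝ) ^ e i₀) else 1)) := by
    rw [Finset.prod_mul_distrib, Finset.prod_ite_eq' Finset.univ i₀, if_pos (Finset.mem_univ _)]
  rw [h1]
  have h2 : ∏ i, (((F i).card : ℝ) * (if i = i₀ then ((tt q : ℝ) ^ (g - (i₀ : ℕ)) / (p : ℝ) ^ e i₀) else 1)) ≤
      ∏ i : Fin g, ((if i = i₀ then 2 * (64 ^ g + 1) else 3 * 4 ^ g) *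
        ((tt q : ℝ) ^ (g - (i : ℕ)) / (p : ℝ) ^ e i)) := by
    refine Finset.prod_le_prod (fun i _ => by split_ifs <;> positivity) fun i _ => ?_
    by_cases hi : i = i₀
    · subst hi
      rw [if_pos rfl, if_pos rfl]
      refine mul_le_mul_of_nonneg_right ?_ h0
      simp only [F, if_pos]
      have h3 := sq_card q g (g - (i : ℕ)) (tt q) (Nat.sub_le _ _) hq ht2
      have h4 : (bd q g i : ℤ) = ((4 ^ g * tt q ^ (g - (i : ℕ)) : ℕ) : ℤ) := rfl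
      rw [h4]
      exact_mod_cast h3
    · rw [if_neg hi, if_neg hi, mul_one]
      simp only [F, if_neg hi]
      have h5 : p ^ e i ≤ bd q g i := (he i).trans (by unfold bd; exact Nat.le_mul_of_pos_left _ (by positivity))
      refine (mul_card (p ^ e i) (bd q g i) (pow_pos hp _) h5).trans (le_of_eq ?_)
      unfold bd
      push_cast
      ring
  refine h2.trans ?_
  rw [Finset.prod_mul_distrib]
  refine mul_le_mul_of_nonneg_right ?_ (Finset.prod_nonneg fun i _ => by positivity)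
  have h6 : ∏ i : Fin g, (if i = i₀ then (2 * (64 ^ g + 1) : ℝ) else 3 * 4 ^ g) ≤
      ∏ i : Fin g, ((if i = i₀ then (2 * (64 ^ g + 1) : ℝ) else 1) * (3 * 4 ^ g)) := by
    refine Finset.prod_le_prod (fun i _ => by split_ifs <;> positivity) fun i _ => ?_
    have h7 : (1 : ℝ) ≤ 3 * 4 ^ g := by
      have : (1 : ℝ) ≤ 4 ^ g := one_le_pow₀ (by norm_num)
      linarith
    split_ifs
    · exact le_mul_of_one_le_right (by positivity) h7
    · rw [one_mul]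
  refine h6.trans (le_of_eq ?_)
  rw [Finset.prod_mul_distrib, Finset.prod_ite_eq' Finset.univ i₀, if_pos (Finset.mem_univ _), Finset.prod_const,
    Finset.card_univ, Fintype.card_fin]

end Pool.Agent.MP_4960c7.NS
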