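import Pool.Agent.Lib.MP_4960c7_ag.NS.Par
import Pool.Agent.Lib.MP_4960c7_ag.NS.Irr
import Pool.Agent.Lib.MP_4960c7_ag.NS.SqS

/-!
# Few real Weil polynomials of a stratum are not generic
-/

namespace Pool.Agent.MP_4960c7.NS

open Polynomial Pool.Agent.MP_4960c7.AR

/-- the irreducible residue classes -/
def IrrClass (g ℓ : ℕ) : Set (Fin g → ZMod ℓ) :=
  {c | Irreducible (X ^ g + ∑ i : Fin g, C (c i) * X ^ (i : ℕ) : (ZMod ℓ)[X])}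

theorem irreducible_of_class {g ℓ : ℕ} (hℓ : ℓ.Prime) (b : Fin g → ℤ)
    (h : (fun i => (b i : ZMod ℓ)) ∈ IrrClass g ℓ) : Irreducible (pol b) := by
  have : Fact ℓ.Prime := ⟨hℓ⟩
  have hmon : (pol b).Monic := monic_X_pow_add (degree_sum_fin_lt b)
  refine hmon.irreducible_of_irreducible_map (Int.castRingHom (ZMod ℓ)) _ ?_
  have h1 : (pol b).map (Int.castRingHom (ZMod ℓ)) = X ^ g + ∑ i : Fin g, C ((b i : ℤ) : ZMod ℓ) * X ^ (i : ℕ) := by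
    unfold pol
    rw [Polynomial.map_add, Polynomial.map_pow, Polynomial.map_X, Polynomial.map_sum]
    congr 1
    refine Finset.sum_congr rfl fun i _ => ?_
    rw [Polynomial.map_mul, Polynomial.map_C, Polynomial.map_pow, Polynomial.map_X]
    rfl
  rw [h1]
  exact h

/-- a real Weil polynomial of the stratum which is not generic is bad in one of three ways -/
theorem sing_cover_strat {g q p a : ℕ} (hg : 0 < g) (hp : p.Prime) (hq : q = p ^ a) (e : Fin g → ℕ) (T : Finset ℕ)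
    (hT : ∀ ℓ ∈ T, ℓ.Prime ∧ 3 ≤ ℓ ∧ ℓ ≠ p) :
    {b : Fin g → ℤ | IsWeil q b ∧ (∀ i, (p : ℤ) ^ e i ∣ b i) ∧ ¬ Generic q b} ⊆
      ({b : Fin g → ℤ | (∀ i, |b i| ≤ bd q g i) ∧ (∀ i, (p : ℤ) ^ e i ∣ b i) ∧
          ∀ ℓ ∈ T, (fun i => (b i : ZMod ℓ)) ∉ IrrClass g ℓ} ∪
        {b : Fin g → ℤ | (∀ i, |b i| ≤ bd q g i) ∧ (∀ i, (p : ℤ) ^ e i ∣ b i) ∧
          (q : ℤ) ^ (g - ((⟨0, hg⟩ : Fin g) : ℕ)) ∣ b ⟨0, hg⟩ ^ 2}) ∪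
      {b : Fin g → ℤ | (∀ i, |b i| ≤ bd q g i) ∧ (∀ i, (p : ℤ) ^ e i ∣ b i) ∧
          ∀ ℓ ∈ T, (fun i => (b i : ZMod ℓ)) ∉ {c : Fin g → ZMod ℓ | Good q ℓ c}} := by
  rintro b ⟨hW, hS, hM⟩
  by_contra hcon
  rw [Set.mem_union, Set.mem_union] at hcon
  push Not at hcon
  obtain ⟨⟨h1, h2⟩, h3⟩ := hcon
  have hbox : ∀ i, |b i| ≤ bd q g i := fun i => AR.abs_le hW i
  apply hM
  refine ⟨?_, ?_, ?_⟩
  · by_contra hi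
    exact h1 ⟨hbox, hS, fun ℓ hℓ hmem => hi (irreducible_of_class (hT ℓ hℓ).1 b hmem)⟩
  · intro _ hd
    exact h2 ⟨hbox, hS, by simpa using hd⟩
  · by_contra hno
    push Not at hno
    refine h3 ⟨hbox, hS, fun ℓ hℓ hgood => ?_⟩
    obtain ⟨hℓp, hℓ3, hℓne⟩ := hT ℓ hℓ
    exact hno ℓ hℓp (by omega) (prime_not_dvd hp hq hℓp hℓne) hgood

theorem fin_box_strat (q g p : ℕ) (e : Fin g → ℕ) (P : (Fin g → ℤ) → Prop) :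
    {b : Fin g → ℤ | (∀ i, |b i| ≤ bd q g i) ∧ (∀ i, (p : ℤ) ^ e i ∣ b i) ∧ P b}.Finite :=
  (fin_box q g).subset fun _ hb => hb.1

/-- few real Weil polynomials of the stratum are not generic -/
theorem single_strat (g : ℕ) (hg : 0 < g) : ∃ M₀ : ℕ, ∀ M : ℕ, M₀ ≤ M → ∀ q p a : ℕ, p.Prime → q = p ^ a →
    ∀ e : Fin g → ℕ, (∀ i, M * p ^ e i ≤ tt q ^ (g - (i : ℕ))) →
    ({b : Fin g → ℤ | IsWeil q b ∧ (∀ i, (p : ℤ) ^ e i ∣ b i) ∧ ¬ Generic q b}.ncard : ℝ) ≤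
      (M : ℝ) ^ (-(2 / 7) : ℝ) *
        ({b : Fin g → ℤ | IsWeil q b ∧ Strat p e Finset.univ b}.ncard : ℝ) := by
  obtain ⟨c, hc, M₁, hlow⟩ := low g hg
  obtain ⟨C₂, hC₂0, hC₂⟩ := square_div_e g
  obtain ⟨δ₁, hδ₁0, hδ₁1, L, hgood⟩ := good_count g hg
  have hgr : (0 : ℝ) < g := by exact_mod_cast hg
  obtain ⟨δ, hδ⟩ : ∃ δ : ℝ, δ = min δ₁ (1 / (2 * (g : ℝ))) := ⟨_, rfl⟩
  have hδ0 : 0 < δ := by rw [hδ]; exact lt_min hδ₁0 (by positivity)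
  obtain ⟨B, hBdef⟩ : ∃ B : ℝ, B = (3 * 4 ^ g) ^ g := ⟨_, rfl⟩
  have hB : 0 < B := by rw [hBdef]; positivity
  obtain ⟨C₃, hC₃⟩ : ∃ C₃ : ℝ, C₃ = C₂ + 2 * ((1 / δ ^ 2 + 3 * 2 ^ g) * B) := ⟨_, rfl⟩
  obtain ⟨M₂, hM₂⟩ := paramsM (max (max L (2 * g ^ 2)) 3) (C₃ / c)
  refine ⟨max (max M₁ M₂) 1, fun M hM q p a hp hqp e he => ?_⟩
  have hM1 : M₁ ≤ M := (le_max_left _ _).trans ((le_max_left _ _).trans hM)
  have hM0 : 0 < M := lt_of_lt_of_le one_pos ((le_max_right _ _).trans hM)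
  obtain ⟨T, Q, hT, hQ3, hT15, hQ15, ht15, hx4, hx1⟩ :=
    hM₂ M ((le_max_right _ _).trans ((le_max_left _ _).trans hM)) p
  have hqr : (0 : ℝ) < M := by linarith
  have hq0 : 0 < q := by rw [hqp]; exact pow_pos hp.pos a
  set x : ℝ := (M : ℝ) with hxdef
  have hx15 : 0 < x ^ (0.3 : ℝ) := by positivity
  have hTpos : (0 : ℝ) < T.card := lt_of_lt_of_le hx15 hT15
  have hT0 : T.Nonempty := by
    rw [← Finset.card_pos]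
    exact_mod_cast hTpos
  have hV : 0 < VS q p e := VS_pos hp.pos e
  have hT' : ∀ ℓ ∈ T, ℓ.Prime ∧ 3 ≤ ℓ ∧ ℓ ≠ p := fun ℓ hℓ =>
    ⟨(hT ℓ hℓ).1, (le_max_right _ _).trans (hT ℓ hℓ).2.1, (hT ℓ hℓ).2.2.1⟩
  have hTL : ∀ ℓ ∈ T, L ≤ ℓ := fun ℓ hℓ =>
    (le_max_left _ _).trans ((le_max_left _ _).trans (hT ℓ hℓ).2.1)
  have hTL2 : ∀ ℓ ∈ T, 2 * g ^ 2 ≤ ℓ := fun ℓ hℓ =>
    (le_max_right _ _).trans ((le_max_left _ _).trans (hT ℓ hℓ).2.1)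
  have hcov := sing_cover_strat hg hp hqp e T hT'
  have hprod0 : (0 : ℝ) ≤ ∏ i : Fin g, (2 * ((bd q g i / p ^ e i : ℕ) : ℝ) + 1) :=
    Finset.prod_nonneg fun i _ => by positivity
  have hsieve : ∀ G : ∀ ℓ : ℕ, Set (Fin g → ZMod ℓ), (∀ ℓ ∈ T, δ * (ℓ : ℝ) ^ g ≤ ((G ℓ).ncard : ℝ)) →
      ({b : Fin g → ℤ | (∀ i, |b i| ≤ bd q g i) ∧ (∀ i, (p : ℤ) ^ e i ∣ b i) ∧
          ∀ ℓ ∈ T, (fun i => (b i : ZMod ℓ)) ∉ G ℓ}.ncard : ℝ) ≤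
        (1 / δ ^ 2 + 3 * 2 ^ g) * B * VS q p e / x ^ (0.3 : ℝ) := by
    intro G hG
    have hsv := sieve_strat T hT0 (fun ℓ hℓ => (hT ℓ hℓ).1) Q (fun ℓ hℓ => (hT ℓ hℓ).2.2.2) δ hδ0 G hG
      p hp (fun ℓ hℓ => (hT ℓ hℓ).2.2.1) e (bd q g) (le_bd_of hQ3 he)
    refine hsv.trans ?_
    have h4 := card_box_strat hp.pos hM0 e he
    rw [← hBdef] at h4
    have hQpos : (0 : ℝ) < Q := lt_of_lt_of_le hx15 hQ15
    have e1 : 1 / (δ ^ 2 * T.card) ≤ 1 / δ ^ 2 / x ^ (0.3 : ℝ) := by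
      rw [div_div]
      exact one_div_le_one_div_of_le (by positivity)
        (mul_le_mul_of_nonneg_left hT15 (by positivity))
    have e2 : 3 * 2 ^ g / (Q : ℝ) ≤ 3 * 2 ^ g / x ^ (0.3 : ℝ) :=
      div_le_div_of_nonneg_left (by positivity) hx15 hQ15
    calc (1 / (δ ^ 2 * T.card) + 3 * 2 ^ g / Q) * ∏ i : Fin g, (2 * ((bd q g i / p ^ e i : ℕ) : ℝ) + 1)
        ≤ (1 / δ ^ 2 / x ^ (0.3 : ℝ) + 3 * 2 ^ g / x ^ (0.3 : ℝ)) * (B * VS q p e) :=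
          mul_le_mul (add_le_add e1 e2) h4 hprod0 (by positivity)
      _ = (1 / δ ^ 2 + 3 * 2 ^ g) * B * VS q p e / x ^ (0.3 : ℝ) := by ring
  have hs1 := hsieve (fun ℓ => IrrClass g ℓ) (fun ℓ hℓ => by
    refine le_trans ?_ (irr_count g hg ℓ (hT ℓ hℓ).1 (hTL2 ℓ hℓ))
    exact mul_le_mul_of_nonneg_right (by rw [hδ]; exact min_le_right _ _) (by positivity))
  have hs3 := hsieve (fun ℓ => {c : Fin g → ZMod ℓ | Good q ℓ c}) (fun ℓ hℓ => by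
    refine le_trans ?_ (hgood ℓ (hT ℓ hℓ).1 (hTL ℓ hℓ) q (prime_not_dvd hp hqp (hT ℓ hℓ).1 (hT ℓ hℓ).2.2.1))
    exact mul_le_mul_of_nonneg_right (by rw [hδ]; exact min_le_left _ _) (by positivity))
  have hsq := hC₂ ⟨0, hg⟩ q p hq0 hp.pos e (fun i => (Nat.le_mul_of_pos_left _ hM0).trans (he i))
  have hfin1 := fin_box_strat q g p e (fun b => ∀ ℓ ∈ T, (fun i => (b i : ZMod ℓ)) ∉ IrrClass g ℓ)
  have hfin2 := fin_box_strat q g p e (fun b => (q : ℤ) ^ (g - ((⟨0, hg⟩ : Fin g) : ℕ)) ∣ b ⟨0, hg⟩ ^ 2)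
  have hfin3 := fin_box_strat q g p e
    (fun b => ∀ ℓ ∈ T, (fun i => (b i : ZMod ℓ)) ∉ {c : Fin g → ZMod ℓ | Good q ℓ c})
  have hcard := Set.ncard_le_ncard hcov ((hfin1.union hfin2).union hfin3)
  have hcard2 := hcard.trans ((Set.ncard_union_le _ _).trans (Nat.add_le_add_right (Set.ncard_union_le _ _) _))
  have h5 := hlow q p hq0 hp.two_le e Finset.univ (fun i => (Nat.mul_le_mul_right _ hM1).trans (he i))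
  change c * VS q p e ≤ _ at h5
  generalize hn1 : ({b : Fin g → ℤ | (∀ i, |b i| ≤ bd q g i) ∧ (∀ i, (p : ℤ) ^ e i ∣ b i) ∧
          ∀ ℓ ∈ T, (fun i => (b i : ZMod ℓ)) ∉ IrrClass g ℓ}.ncard) = n1 at hs1 hcard2
  generalize hn2 : ({b : Fin g → ℤ | (∀ i, |b i| ≤ bd q g i) ∧ (∀ i, (p : ℤ) ^ e i ∣ b i) ∧
          (q : ℤ) ^ (g - ((⟨0, hg⟩ : Fin g) : ℕ)) ∣ b ⟨0, hg⟩ ^ 2}.ncard) = n2 at hsq hcard2
  generalize hn3 : ({b : Fin g → ℤ | (∀ i, |b i| ≤ bd q g i) ∧ (∀ i, (p : ℤ) ^ e i ∣ b i) ∧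
          ∀ ℓ ∈ T, (fun i => (b i : ZMod ℓ)) ∉ {c : Fin g → ZMod ℓ | Good q ℓ c}}.ncard) = n3 at hs3 hcard2
  have hcard3 : ({b : Fin g → ℤ | IsWeil q b ∧ (∀ i, (p : ℤ) ^ e i ∣ b i) ∧ ¬ Generic q b}.ncard : ℝ) ≤
      (n1 : ℝ) + n2 + n3 := by
    exact_mod_cast hcard2
  have hsmall : (n2 : ℝ) ≤ C₂ * VS q p e / x ^ (0.3 : ℝ) := by
    rw [le_div_iff₀ hx15]
    have hpr : (0 : ℝ) < p := by exact_mod_cast hp.pos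
    have e3 : x ≤ (tt q : ℝ) ^ (g - ((⟨0, hg⟩ : Fin g) : ℕ)) / (p : ℝ) ^ e ⟨0, hg⟩ := by
      rw [le_div_iff₀ (pow_pos hpr _), hxdef]
      exact_mod_cast he ⟨0, hg⟩
    have e4 : (n2 : ℝ) * x ^ (0.3 : ℝ) ≤
        (n2 : ℝ) * ((tt q : ℝ) ^ (g - ((⟨0, hg⟩ : Fin g) : ℕ)) / (p : ℝ) ^ e ⟨0, hg⟩) :=
      mul_le_mul_of_nonneg_left (ht15.trans e3) (Nat.cast_nonneg _)
    exact e4.trans hsq
  have htotal : ({b : Fin g → ℤ | IsWeil q b ∧ (∀ i, (p : ℤ) ^ e i ∣ b i) ∧ ¬ Generic q b}.ncard : ℝ) ≤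
      C₃ * VS q p e / x ^ (0.3 : ℝ) := by
    have e1 : C₃ * VS q p e / x ^ (0.3 : ℝ) = (1 / δ ^ 2 + 3 * 2 ^ g) * B * VS q p e / x ^ (0.3 : ℝ) +
        C₂ * VS q p e / x ^ (0.3 : ℝ) + (1 / δ ^ 2 + 3 * 2 ^ g) * B * VS q p e / x ^ (0.3 : ℝ) := by
      rw [hC₃]; ring
    rw [e1]
    linarith
  refine htotal.trans ?_
  have hx7 : x ^ (0.3 : ℝ) = x ^ (0.3 - 2 / 7 : ℝ) * x ^ (2 / 7 : ℝ) := by
    rw [← Real.rpow_add hqr]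
    norm_num
  have hC3 : C₃ ≤ c * x ^ (0.3 - 2 / 7 : ℝ) := by
    rw [div_le_iff₀ hc] at hx4
    linarith
  have hx7pos : 0 < x ^ (2 / 7 : ℝ) := by positivity
  have hx8pos : 0 < x ^ (0.3 - 2 / 7 : ℝ) := by positivity
  calc C₃ * VS q p e / x ^ (0.3 : ℝ) ≤ (c * x ^ (0.3 - 2 / 7 : ℝ)) * VS q p e / x ^ (0.3 : ℝ) := by
        gcongr
    _ = x ^ (-(2 / 7) : ℝ) * (c * VS q p e) := by
        rw [hx7, Real.rpow_neg hqr.le]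
        field_simp
    _ ≤ _ := mul_le_mul_of_nonneg_left h5 (by positivity)

end Pool.Agent.MP_4960c7.NS
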