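import Pool.Agent.Lib.MP_4960c7_ag.NS.NFib
import Pool.Agent.Lib.MP_4960c7_ag.NS.SingS
import Pool.Agent.Lib.MP_4960c7_ag.AR.CFin

/-!
# A positive proportion of finitely many strata, all of whose tuples are good
-/

namespace Pool.Agent.MP_4960c7.NS

open Polynomial NumberField Pool.Agent.MP_4960c7.AR

/-- disjoint parts of finitely many finite sets -/
private theorem disj {ι β : Type*} (F : ι → Finset β) (n : ℕ) (I : Finset ι) :
    I.card ≤ n → ∃ F' : ι → Finset β, (∀ i ∈ I, F' i ⊆ F i ∧ (F' i).card = (F i).card / n) ∧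
      ∀ i ∈ I, ∀ j ∈ I, i ≠ j → Disjoint (F' i) (F' j) := by
  classical
  induction I using Finset.induction_on_max_value (fun i => (F i).card) with
  | empty => exact fun _ => ⟨fun _ => ∅, by simp, by simp⟩
  | insert a I ha hmax ih =>
    intro hcard
    rw [Finset.card_insert_of_notMem ha] at hcard
    obtain ⟨F', h1, h2⟩ := ih (by omega)
    have h3 : (F a).card / n ≤ (F a \ I.biUnion F').card := by
      have h4 : (I.biUnion F').card ≤ I.card * ((F a).card / n) := by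
        refine Finset.card_biUnion_le_card_mul _ _ _ fun i hi => ?_
        rw [(h1 i hi).2]
        exact Nat.div_le_div_right (hmax i hi)
      have h5 := Finset.le_card_sdiff (I.biUnion F') (F a)
      have h6 : (I.card + 1) * ((F a).card / n) ≤ (F a).card :=
        (Nat.mul_le_mul_right _ hcard).trans (Nat.mul_div_le _ _)
      have h7 : (I.card + 1) * ((F a).card / n) = I.card * ((F a).card / n) + (F a).card / n := by ring
      omega
    obtain ⟨T, hT1, hT2⟩ := Finset.exists_subset_card_eq h3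
    refine ⟨fun i => if i = a then T else F' i, ?_, ?_⟩
    · intro i hi
      rcases Finset.mem_insert.1 hi with h | h
      · subst h
        rw [show (fun j => if j = i then T else F' j) i = T from if_pos rfl]
        exact ⟨hT1.trans Finset.sdiff_subset, hT2⟩
      · have h4 : i ≠ a := fun h' => ha (h' ▸ h)
        simp only [if_neg h4]
        exact h1 i h
    · have key : ∀ j ∈ I, Disjoint T (F' j) := by
        intro j hj
        refine Finset.disjoint_left.2 fun x hx hx' => ?_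
        have h4 := hT1 hx
        rw [Finset.mem_sdiff] at h4
        exact h4.2 (Finset.mem_biUnion.2 ⟨j, hj, hx'⟩)
      intro i hi j hj hij
      rcases Finset.mem_insert.1 hi with h | h
      · have h5 : j ∈ I := (Finset.mem_insert.1 hj).resolve_left fun h' => hij (h.trans h'.symm)
        have h6 : j ≠ a := fun h' => hij (h.trans h'.symm)
        simp only [if_pos h, if_neg h6]
        exact key j h5
      · have h4 : i ≠ a := fun h' => ha (h' ▸ h)
        rcases Finset.mem_insert.1 hj with h' | h'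
        · simp only [if_neg h4, if_pos h']
          exact (key i h).symm
        · have h5 : j ≠ a := fun h'' => ha (h'' ▸ h')
          simp only [if_neg h4, if_neg h5]
          exact h2 i h j h' hij

/-- the number of all real Weil polynomials with divisible coefficients -/
private theorem upper {g q p M : ℕ} (hp : 0 < p) (hM : 0 < M) (e : Fin g → ℕ)
    (he : ∀ i, M * p ^ e i ≤ tt q ^ (g - (i : ℕ))) :
    ({b : Fin g → ℤ | IsWeil q b ∧ ∀ i, (p : ℤ) ^ e i ∣ b i}.ncard : ℝ) ≤ (3 * 4 ^ g) ^ g * VS q p e := by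
  classical
  refine le_trans ?_ (card_box_strat hp hM e he)
  let B : Finset (Fin g → ℤ) := Fintype.piFinset fun i : Fin g =>
    Finset.Icc (-((bd q g i / p ^ e i : ℕ) : ℤ)) ((bd q g i / p ^ e i : ℕ) : ℤ)
  have hpos : ∀ i, (0 : ℤ) < (p : ℤ) ^ e i := fun i => by positivity
  have h1 : {b : Fin g → ℤ | IsWeil q b ∧ ∀ i, (p : ℤ) ^ e i ∣ b i}.ncard ≤ (B : Set (Fin g → ℤ)).ncard := by
    refine Set.ncard_le_ncard_of_injOn (fun b i => b i / (p : ℤ) ^ e i) ?_ ?_ (Finset.finite_toSet _)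
    · rintro b ⟨hW, hd⟩
      rw [Finset.mem_coe, Fintype.mem_piFinset]
      intro i
      have h2 := AR.abs_le hW i
      obtain ⟨c, hc⟩ := hd i
      have h3 : b i / (p : ℤ) ^ e i = c := by
        rw [hc, Int.mul_ediv_cancel_left _ (hpos i).ne']
      simp only [h3]
      have h4 : c.natAbs ≤ bd q g i / p ^ e i := by
        rw [Nat.le_div_iff_mul_le (pow_pos hp _)]
        rw [hc, abs_mul, abs_of_pos (hpos i), Int.abs_eq_natAbs] at h2
        have h5 : ((p ^ e i * c.natAbs : ℕ) : ℤ) ≤ (bd q g i : ℕ) := by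
          rw [Nat.cast_mul, Nat.cast_pow]
          exact h2
        have h6 : p ^ e i * c.natAbs ≤ bd q g i := by exact_mod_cast h5
        rwa [mul_comm] at h6
      rw [Finset.mem_Icc]
      omega
    · rintro b ⟨-, hd⟩ b' ⟨-, hd'⟩ h
      funext i
      have h2 := congrFun h i
      simp only at h2
      obtain ⟨c, hc⟩ := hd i
      obtain ⟨c', hc'⟩ := hd' i
      rw [hc, hc', Int.mul_ediv_cancel_left _ (hpos i).ne', Int.mul_ediv_cancel_left _ (hpos i).ne'] at h2
      rw [hc, hc', h2]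
  rw [Set.ncard_coe_finset] at h1
  have h1' : ({b : Fin g → ℤ | IsWeil q b ∧ ∀ i, (p : ℤ) ^ e i ∣ b i}.ncard : ℝ) ≤ (B.card : ℝ) :=
    Nat.cast_le.2 h1
  refine h1'.trans (le_of_eq ?_)
  rw [Fintype.card_piFinset, Nat.cast_prod]
  refine Finset.prod_congr rfl fun i _ => ?_
  rw [Int.card_Icc]
  have h2 : ((bd q g i / p ^ e i : ℕ) + 1 - -((bd q g i / p ^ e i : ℕ) : ℤ)).toNat = 2 * (bd q g i / p ^ e i) + 1 := by
    omega
  rw [h2]
  push_cast
  ring

/-- the fields of the generic members of a stratum -/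
private theorem fields (g s : ℕ) (hg : 0 < g) : ∃ D : ℝ, 0 < D ∧ ∃ M₀ : ℕ, ∀ q p a : ℕ, p.Prime → 0 < a →
    q = p ^ a → ∀ lam : ℕ → ℝ, IsPolygon g lam →
    (∀ K, K ≤ g → IsVertex g lam K → ∃ n : ℕ, (a : ℝ) * lam K = n) →
    (∀ K, 0 < K → K ≤ g → M₀ * p ^ ⌈(a : ℝ) * lam K⌉₊ ≤ tt q ^ K) →
    ({b : Fin g → ℤ | IsWeil q b ∧ ∀ j, (p : ℤ) ^ ex a g lam j ∣ b j}.ncard : ℝ) ≤
      D * (((fun b : Fin g → ℤ => weilField q b) ''
        {b | IsWeil q b ∧ HasNewton p a g lam (wp q b) ∧ Generic q b}).ncard : ℝ) ∧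
    s ≤ ((fun b : Fin g → ℤ => weilField q b) ''
        {b | IsWeil q b ∧ HasNewton p a g lam (wp q b) ∧ Generic q b}).ncard := by
  classical
  obtain ⟨c, hc, M₁, hlow⟩ := low g hg
  obtain ⟨M₂, hsing⟩ := single_strat g hg
  have hCN : 0 < CN g := by unfold CN; positivity
  have hCN' : (0 : ℝ) < CN g := by exact_mod_cast hCN
  obtain ⟨m, hm⟩ := exists_nat_ge (2 * CN g * s / c)
  obtain ⟨M, hM⟩ : ∃ M, M = max (max M₁ M₂) (max 16 m) := ⟨_, rfl⟩
  have hM1 : M₁ ≤ M := by rw [hM]; exact (le_max_left _ _).trans (le_max_left _ _)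
  have hM2 : M₂ ≤ M := by rw [hM]; exact (le_max_right _ _).trans (le_max_left _ _)
  have hM3 : 16 ≤ M := by rw [hM]; exact (le_max_left _ _).trans (le_max_right _ _)
  have hM4 : m ≤ M := by rw [hM]; exact (le_max_right _ _).trans (le_max_right _ _)
  have hB : (0 : ℝ) < (3 * 4 ^ g) ^ g := by positivity
  refine ⟨2 * (3 * 4 ^ g) ^ g * CN g / c, by positivity, M, ?_⟩
  intro q p a hp ha hq lam hl hint hs
  have hex : ∀ i : Fin g, M * p ^ ex a g lam i ≤ tt q ^ (g - (i : ℕ)) := by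
    intro i
    have := i.2
    exact hs (g - (i : ℕ)) (by omega) (Nat.sub_le _ _)
  obtain ⟨S, hS⟩ : ∃ S, S = {b : Fin g → ℤ | IsWeil q b ∧ HasNewton p a g lam (wp q b) ∧ Generic q b} := ⟨_, rfl⟩
  rw [← hS]
  have hfinW : {b : Fin g → ℤ | IsWeil q b}.Finite := finite_weil q g
  have hSfin : S.Finite := by rw [hS]; exact hfinW.subset fun b hb => hb.1
  -- the exact stratum
  obtain ⟨E, hE⟩ : ∃ E, E = {b : Fin g → ℤ | IsWeil q b ∧ Strat p (ex a g lam) Finset.univ b} := ⟨_, rfl⟩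
  obtain ⟨W, hW⟩ : ∃ W, W = {b : Fin g → ℤ | IsWeil q b ∧ (∀ i, (p : ℤ) ^ ex a g lam i ∣ b i) ∧ ¬ Generic q b} :=
    ⟨_, rfl⟩
  have hWfin : W.Finite := by rw [hW]; exact hfinW.subset fun b hb => hb.1
  have h1 : c * VS q p (ex a g lam) ≤ (E.ncard : ℝ) := by
    rw [hE]
    exact hlow q p (hq ▸ pow_pos hp.pos a) hp.two_le _ Finset.univ fun i =>
      (Nat.mul_le_mul_right _ hM1).trans (hex i)
  have h2 : (W.ncard : ℝ) ≤ 1 / 2 * E.ncard := by
    rw [hW, hE]
    refine (hsing M hM2 q p a hp hq _ hex).trans (mul_le_mul_of_nonneg_right ?_ (Nat.cast_nonneg _))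
    have h3 : (16 : ℝ) ≤ M := by exact_mod_cast hM3
    have h4 : (M : ℝ) ^ (-(2 / 7) : ℝ) ≤ (16 : ℝ) ^ (-(2 / 7) : ℝ) :=
      Real.rpow_le_rpow_of_nonpos (by norm_num) h3 (by norm_num)
    refine h4.trans ?_
    have h5 : (16 : ℝ) ^ (-(2 / 7) : ℝ) = (2 : ℝ) ^ (-(8 / 7) : ℝ) := by
      rw [show (16 : ℝ) = (2 : ℝ) ^ (4 : ℝ) by norm_num, ← Real.rpow_mul (by norm_num)]
      norm_num
    rw [h5]
    calc (2 : ℝ) ^ (-(8 / 7) : ℝ) ≤ (2 : ℝ) ^ (-1 : ℝ) :=
          Real.rpow_le_rpow_of_exponent_le (by norm_num) (by norm_num)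
      _ = 1 / 2 := by rw [Real.rpow_neg_one]; norm_num
  have h3 : (E.ncard : ℝ) ≤ S.ncard + W.ncard := by
    have h4 : E ⊆ S ∪ W := by
      rw [hE, hS, hW]
      rintro b ⟨hb1, hb2⟩
      by_cases hb3 : Generic q b
      · refine Or.inl ⟨hb1, ?_, hb3⟩
        rw [hq]
        exact (newt_iff hp ha hl hint b).2 ⟨hb2.1, fun j _ => hb2.2 j (Finset.mem_univ j)⟩
      · exact Or.inr ⟨hb1, hb2.1, hb3⟩
    have h5 := (Set.ncard_le_ncard h4 (hSfin.union hWfin)).trans (Set.ncard_union_le _ _)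
    exact_mod_cast h5
  have h4 : (E.ncard : ℝ) ≤ 2 * S.ncard := by linarith
  -- fibres
  obtain ⟨n, hn⟩ : ∃ n, n = ((fun b : Fin g → ℤ => weilField q b) '' S).ncard := ⟨_, rfl⟩
  rw [← hn]
  have h5 : S.ncard ≤ CN g * n := by
    have h6 : n = (hSfin.toFinset.image (fun b : Fin g → ℤ => weilField q b)).card := by
      rw [hn, ← Set.ncard_coe_finset, Finset.coe_image, Set.Finite.coe_toFinset]
    rw [h6, Set.ncard_eq_toFinset_card S hSfin]
    refine Finset.card_le_mul_card_image _ _ fun K _ => ?_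
    refine le_trans (le_of_eq ?_) ((Set.ncard_le_ncard (t := {b : Fin g → ℤ | IsWeil (p ^ a) b ∧
      HasNewton p a g lam (wp (p ^ a) b) ∧ Irreducible (pol b) ∧ weilField (p ^ a) b = K})
      (s := {b | b ∈ S ∧ weilField q b = K}) ?_ ?_).trans (fiber_newt hg hp ha hl hint K))
    · rw [← Set.ncard_coe_finset]
      congr 1
      ext b
      simp
    · rintro b ⟨hb, hK⟩
      rw [hS] at hb
      rw [← hq]
      exact ⟨hb.1, hb.2.1, hb.2.2.1, hK⟩
    · rw [← hq]
      exact hfinW.subset fun b hb => hb.1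
  have h5' : (S.ncard : ℝ) ≤ CN g * n := by exact_mod_cast h5
  refine ⟨?_, ?_⟩
  · refine (upper hp.pos (by omega) _ hex).trans ?_
    have h6 : c * VS q p (ex a g lam) ≤ 2 * (CN g * n) := by linarith
    have h7 : VS q p (ex a g lam) ≤ 2 * (CN g * n) / c := by
      rw [le_div_iff₀ hc]
      linarith
    calc (3 * 4 ^ g) ^ g * VS q p (ex a g lam) ≤ (3 * 4 ^ g) ^ g * (2 * (CN g * n) / c) :=
          mul_le_mul_of_nonneg_left h7 hB.le
      _ = 2 * (3 * 4 ^ g) ^ g * CN g / c * n := by ring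
  · have h6 : (M : ℝ) ≤ VS q p (ex a g lam) := by
      have hMr : (1 : ℝ) ≤ M := by exact_mod_cast (by omega : 1 ≤ M)
      have h7 : ∀ i : Fin g, (M : ℝ) ≤ (tt q : ℝ) ^ (g - (i : ℕ)) / (p : ℝ) ^ ex a g lam i := by
        intro i
        rw [le_div_iff₀ (pow_pos (by exact_mod_cast hp.pos) _)]
        exact_mod_cast hex i
      have h8 : ∏ _i : Fin g, (M : ℝ) ≤ VS q p (ex a g lam) :=
        Finset.prod_le_prod (fun _ _ => Nat.cast_nonneg _) fun i _ => h7 i
      rw [Finset.prod_const, Finset.card_univ, Fintype.card_fin] at h8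
      exact (le_self_pow₀ hMr hg.ne').trans h8
    have h7 : 2 * (CN g : ℝ) * s ≤ m * c := (div_le_iff₀ hc).1 hm
    have h8 : (m : ℝ) ≤ M := by exact_mod_cast hM4
    have h9 : (CN g : ℝ) * s ≤ CN g * n := by
      have h10 : (m : ℝ) * c ≤ c * VS q p (ex a g lam) := by
        rw [mul_comm]
        exact mul_le_mul_of_nonneg_left (h8.trans h6) hc.le
      linarith
    have h10 : (s : ℝ) ≤ n := le_of_mul_le_mul_left h9 hCN'
    exact_mod_cast h10

/-- Finitely many strata (or sets between a stratum and the set given by its divisibilities) have subsets of positive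
proportion such that all tuples of different members of their union are good. -/
theorem positive_strata (G s : ℕ) : ∃ c : ℝ, 0 < c ∧ ∃ M₀ : ℕ, ∀ q p a : ℕ, p.Prime → 0 < a → q = p ^ a →
    ∀ (g : Fin s → ℕ) (lam : Fin s → ℕ → ℝ) (A : ∀ i, Set (Fin (g i) → ℤ)),
      (∀ i, 0 < g i) → (∀ i, g i ≤ G) → (∀ i, IsPolygon (g i) (lam i)) →
      (∀ i K, K ≤ g i → IsVertex (g i) (lam i) K → ∃ n : ℕ, (a : ℝ) * lam i K = n) →
      (∀ i K, 0 < K → K ≤ g i → M₀ * p ^ ⌈(a : ℝ) * lam i K⌉₊ ≤ tt q ^ K) →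
      (∀ i b, IsWeil q b → HasNewton p a (g i) (lam i) (wp q b) → b ∈ A i) →
      (∀ i, ∀ b ∈ A i, IsWeil q b ∧ ∀ j, (p : ℤ) ^ ex a (g i) (lam i) j ∣ b j) →
      ∃ P : ∀ i, Set (Fin (g i) → ℤ), (∀ i, P i ⊆ A i) ∧
        (∀ i, c * ((A i).ncard : ℝ) ≤ ((P i).ncard : ℝ)) ∧
        ∀ (k : ℕ) (t : Fin k → Fin s) (b : ∀ i, Fin (g (t i)) → ℤ), (∀ i, b i ∈ P (t i)) →
          Function.Injective (fun i => (⟨g (t i), b i⟩ : Σ n : ℕ, (Fin n → ℤ))) → GoodTuple q b := by
  classical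
  have hf : ∀ g : ℕ, ∃ (D : ℝ) (M₀ : ℕ), 0 < D ∧ (0 < g → ∀ q p a : ℕ, p.Prime → 0 < a →
      q = p ^ a → ∀ lam : ℕ → ℝ, IsPolygon g lam →
      (∀ K, K ≤ g → IsVertex g lam K → ∃ n : ℕ, (a : ℝ) * lam K = n) →
      (∀ K, 0 < K → K ≤ g → M₀ * p ^ ⌈(a : ℝ) * lam K⌉₊ ≤ tt q ^ K) →
      ({b : Fin g → ℤ | IsWeil q b ∧ ∀ j, (p : ℤ) ^ ex a g lam j ∣ b j}.ncard : ℝ) ≤
        D * (((fun b : Fin g → ℤ => weilField q b) ''
          {b | IsWeil q b ∧ HasNewton p a g lam (wp q b) ∧ Generic q b}).ncard : ℝ) ∧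
      s + 1 ≤ ((fun b : Fin g → ℤ => weilField q b) ''
          {b | IsWeil q b ∧ HasNewton p a g lam (wp q b) ∧ Generic q b}).ncard) := by
    intro g
    by_cases hg : 0 < g
    · obtain ⟨D, hD, M₀, h⟩ := fields g (s + 1) hg
      exact ⟨D, M₀, hD, fun _ => h⟩
    · exact ⟨1, 0, one_pos, fun h => absurd h hg⟩
  choose D M hD hDM using hf
  obtain ⟨DD, hDD⟩ : ∃ DD : ℝ, DD = ∑ g ∈ Finset.range (G + 1), D g := ⟨_, rfl⟩
  have hDle : ∀ g, g ≤ G → D g ≤ DD := by
    intro g hg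
    rw [hDD]
    exact Finset.single_le_sum (f := D) (fun i _ => (hD i).le) (Finset.mem_range.2 (by omega))
  have hDD0 : 0 < DD := (hD 0).trans_le (hDle 0 (Nat.zero_le _))
  refine ⟨1 / (2 * (s + 1) * DD), by positivity, (Finset.range (G + 1)).sup M, ?_⟩
  intro q p a hp ha hq g lam A hg hG hl hint hs hA1 hA2
  have hMle : ∀ i, M (g i) ≤ (Finset.range (G + 1)).sup M := fun i =>
    Finset.le_sup (f := M) (Finset.mem_range.2 (Nat.lt_succ_of_le (hG i)))
  have hi : ∀ i, _ := fun i => hDM (g i) (hg i) q p a hp ha hq (lam i) (hl i) (hint i)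
    (fun K hK0 hK => (Nat.mul_le_mul_right _ (hMle i)).trans (hs i K hK0 hK))
  obtain ⟨S, hS⟩ : ∃ S : ∀ i, Set (Fin (g i) → ℤ), S = fun i =>
    {b | IsWeil q b ∧ HasNewton p a (g i) (lam i) (wp q b) ∧ Generic q b} := ⟨_, rfl⟩
  have hSfin : ∀ i, (S i).Finite := fun i => by
    rw [hS]
    exact (finite_weil q (g i)).subset fun b hb => hb.1
  have hFfin : ∀ i, ((fun b : Fin (g i) → ℤ => weilField q b) '' S i).Finite := fun i => (hSfin i).image _
  obtain ⟨F', hF1, hF2⟩ := disj (fun i => (hFfin i).toFinset) (s + 1) (Finset.univ : Finset (Fin s))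
    (by rw [Finset.card_univ, Fintype.card_fin]; omega)
  have hsel : ∀ i, ∃ P, P ⊆ S i ∧ Set.BijOn (fun b : Fin (g i) → ℤ => weilField q b) P (F' i : Set _) := by
    intro i
    refine Set.SurjOn.exists_bijOn_subset ?_
    intro K hK
    have h1 := (hF1 i (Finset.mem_univ i)).1 hK
    rw [Set.Finite.mem_toFinset] at h1
    exact h1
  choose P hPS hPB using hsel
  refine ⟨P, fun i b hb => ?_, fun i => ?_, fun k t b hb hinj => ?_⟩
  · have h1 := hPS i hb
    rw [hS] at h1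
    exact hA1 i b h1.1 h1.2.1
  · obtain ⟨h1, h2⟩ := hi i
    obtain ⟨n, hn⟩ : ∃ n, n = ((fun b : Fin (g i) → ℤ => weilField q b) '' S i).ncard := ⟨_, rfl⟩
    have hSi : S i = {b | IsWeil q b ∧ HasNewton p a (g i) (lam i) (wp q b) ∧ Generic q b} := by rw [hS]
    rw [← hSi, ← hn] at h1 h2
    have h3 : (P i).ncard = n / (s + 1) := by
      rw [(hPB i).ncard_eq, Set.ncard_coe_finset, (hF1 i (Finset.mem_univ i)).2, hn,
        Set.ncard_eq_toFinset_card _ (hFfin i)]
    have h4 : ((A i).ncard : ℝ) ≤ DD * n := by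
      have h5 : (A i).ncard ≤ {b : Fin (g i) → ℤ | IsWeil q b ∧
          ∀ j, (p : ℤ) ^ ex a (g i) (lam i) j ∣ b j}.ncard :=
        Set.ncard_le_ncard (fun b hb => hA2 i b hb) ((finite_weil q (g i)).subset fun b hb => hb.1)
      have h6 : ((A i).ncard : ℝ) ≤ D (g i) * n := le_trans (by exact_mod_cast h5) h1
      exact h6.trans (mul_le_mul_of_nonneg_right (hDle _ (hG i)) (Nat.cast_nonneg _))
    have h5 : n ≤ 2 * (s + 1) * (n / (s + 1)) := by
      have h6 := Nat.div_add_mod n (s + 1)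
      have h7 := Nat.mod_lt n (show 0 < s + 1 by omega)
      have h8 : 1 ≤ n / (s + 1) := (Nat.one_le_div_iff (by omega)).2 h2
      nlinarith
    have h5' : (n : ℝ) ≤ 2 * (s + 1) * (P i).ncard := by
      rw [h3]
      exact_mod_cast h5
    have h6 : (0 : ℝ) < 2 * (s + 1) * DD := by positivity
    rw [one_div, inv_mul_le_iff₀ h6]
    calc ((A i).ncard : ℝ) ≤ DD * n := h4
      _ ≤ DD * (2 * (s + 1) * (P i).ncard) := mul_le_mul_of_nonneg_left h5' hDD0.le
      _ = 2 * (s + 1) * DD * (P i).ncard := by ring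
  · have key : ∀ u v : Fin s, ∀ x ∈ P u, ∀ y ∈ P v, weilField q x = weilField q y →
        (⟨g u, x⟩ : Σ n : ℕ, (Fin n → ℤ)) = ⟨g v, y⟩ := by
      intro u v x hx y hy hK
      by_cases huv : u = v
      · subst huv
        rw [(hPB u).injOn hx hy hK]
      · have h1 : weilField q x ∈ F' u := (hPB u).mapsTo hx
        have h2 : weilField q y ∈ F' v := (hPB v).mapsTo hy
        rw [hK] at h1
        exact absurd h2 (Finset.disjoint_left.1 (hF2 u (Finset.mem_univ _) v (Finset.mem_univ _) huv) h1)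
    refine ⟨fun i => ?_, fun i j hij hK => hij (hinj (key _ _ _ (hb i) _ (hb j) hK))⟩
    have h1 := hPS _ (hb i)
    rw [hS] at h1
    exact h1.2.2

end Pool.Agent.MP_4960c7.NS
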