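import Pool.Agent.Lib.MP_4960c7_ag.NS.DensS
import Pool.Agent.Lib.MP_4960c7_ag.NS.NSel

/-!
# Large sets of real Weil polynomials: all sets which contain the ordinary ones, and all Newton strata
-/

namespace Pool.Agent.MP_4960c7.NS

open Polynomial Pool.Agent.MP_4960c7.AR

/-- `A` is a set of real `q`-Weil polynomials of degree `g ≥ 1` (`q = p ^ a`) which contains the ordinary ones (`p` does not
divide the constant coefficient), or the set of those which have a given Newton polygon `lam`, with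
`a * lam K` integral at the vertices `K` and `M * p ^ ⌈a * lam K⌉ ≤ (⌊√q⌋ + 1) ^ K` for `0 < K ≤ g`. -/
def IsStratum (M q p a : ℕ) {g : ℕ} (A : Set (Fin g → ℤ)) : Prop :=
  0 < g ∧ (((∀ b ∈ A, IsWeil q b) ∧ ∀ b, IsWeil q b → (∀ hg : 0 < g, ¬ (p : ℤ) ∣ b ⟨0, hg⟩) → b ∈ A) ∨
    ∃ lam : ℕ → ℝ, IsPolygon g lam ∧
      (∀ K, K ≤ g → IsVertex g lam K → ∃ n : ℕ, (a : ℝ) * lam K = n) ∧
      (∀ K, 0 < K → K ≤ g → M * p ^ ⌈(a : ℝ) * lam K⌉₊ ≤ tt q ^ K) ∧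
      A = {b | IsWeil q b ∧ HasNewton p a g lam (wp q b)})

/-- the polygon `0` -/
private theorem zero_polygon (g : ℕ) : IsPolygon g (fun _ => 0) :=
  ⟨rfl, le_rfl, fun _ _ => le_rfl, by norm_num⟩

private theorem stratum_aux {M q p a g : ℕ} (hp : p.Prime) (ha : 0 < a) (hq : q = p ^ a) (hM : M ≤ tt q)
    {A : Set (Fin g → ℤ)} (hA : IsStratum M q p a A) :
    ∃ lam : ℕ → ℝ, IsPolygon g lam ∧
      (∀ K, K ≤ g → IsVertex g lam K → ∃ n : ℕ, (a : ℝ) * lam K = n) ∧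
      (∀ K, 0 < K → K ≤ g → M * p ^ ⌈(a : ℝ) * lam K⌉₊ ≤ tt q ^ K) ∧
      (∀ b, IsWeil q b → HasNewton p a g lam (wp q b) → b ∈ A) ∧
      (∀ b ∈ A, IsWeil q b ∧ ∀ j, (p : ℤ) ^ ex a g lam j ∣ b j) := by
  obtain ⟨hg, ⟨hA1, hA2⟩ | ⟨lam, hl, hint, hs, hA⟩⟩ := hA
  · have hint : ∀ K, K ≤ g → IsVertex g (fun _ => (0 : ℝ)) K → ∃ n : ℕ, (a : ℝ) * (fun _ : ℕ => (0 : ℝ)) K = n :=
      fun K _ _ => ⟨0, by simp⟩
    refine ⟨fun _ => 0, zero_polygon g, hint, fun K hK0 hK => ?_, fun b hb hN => hA2 b hb fun _ => ?_,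
      fun b hb => ⟨hA1 b hb, fun j => ?_⟩⟩
    · rw [mul_zero, Nat.ceil_zero, pow_zero, mul_one]
      have h3 : 0 < tt q := by unfold tt; omega
      exact hM.trans (Nat.le_self_pow (by omega) _)
    · rw [hq] at hN
      have h1 := ((newt_iff hp ha (zero_polygon g) hint b).1 hN).2 ⟨0, hg⟩
      have h2 : IsVertex g (fun _ => (0 : ℝ)) (g - 0) := ⟨by omega, Or.inr ⟨by omega, by norm_num⟩⟩
      have h3 := h1 h2
      unfold ex at h3
      rw [mul_zero, Nat.ceil_zero, zero_add, pow_one] at h3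
      exact h3
    · unfold ex
      rw [mul_zero, Nat.ceil_zero, pow_zero]
      exact one_dvd _
  · refine ⟨lam, hl, hint, hs, fun b hb hN => ?_, fun b hb => ?_⟩
    · rw [hA]
      exact ⟨hb, hN⟩
    · rw [hA] at hb
      refine ⟨hb.1, ?_⟩
      have h3 := hb.2
      rw [hq] at h3
      exact ((newt_iff hp ha hl hint b).1 h3).1

private theorem a_pos {M q p a : ℕ} (hq : q = p ^ a) (hM : M ≤ tt q) (hM3 : 3 ≤ M) : 0 < a := by
  rcases Nat.eq_zero_or_pos a with h | h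
  · subst h
    rw [pow_zero] at hq
    subst hq
    have h4 : tt 1 = 2 := by
      unfold tt
      rw [Nat.sqrt_one]
    omega
  · exact h

/-- Almost all tuples of members of large sets are good. -/
theorem density_all (G : ℕ) : ∃ M₀ : ℕ, ∀ q p a M : ℕ, p.Prime → q = p ^ a → M₀ ≤ M → M ≤ tt q →
    ∀ (k : ℕ) (g : Fin k → ℕ) (A : ∀ i, Set (Fin (g i) → ℤ)), (∀ i, g i ≤ G) →
      (∀ i, IsStratum M q p a (A i)) →
      {b : ∀ i, Fin (g i) → ℤ | ∀ i, b i ∈ A i}.Finite ∧ (∀ i, 0 < (A i).ncard) ∧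
      ({b : ∀ i, Fin (g i) → ℤ | (∀ i, b i ∈ A i) ∧ ¬ GoodTuple q b}.ncard : ℝ) ≤
        (k : ℝ) ^ 2 * (M : ℝ) ^ (-(2 / 7) : ℝ) * ∏ i, ((A i).ncard : ℝ) := by
  obtain ⟨M₁, h1⟩ := density_strat G
  refine ⟨max M₁ 3, fun q p a M hp hqa hM hMt k g A hG hA => ?_⟩
  have ha : 0 < a := a_pos hqa hMt ((le_max_right _ _).trans hM)
  have key := fun i => stratum_aux hp ha hqa hMt (hA i)
  choose lam hl hint hs hA1 hA2 using key
  refine h1 M ((le_max_left _ _).trans hM) q p a hp hqa k g (fun i => ex a (g i) (lam i)) A (fun i => (hA i).1) hG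
    (fun i j => ?_) (fun i b hb hS => hA1 i b hb ?_) hA2
  · have hj := j.2
    exact hs i (g i - (j : ℕ)) (by omega) (Nat.sub_le _ _)
  · rw [hqa]
    exact (newt_iff hp ha (hl i) (hint i) b).2 ⟨hS.1, fun j _ => hS.2 j (Finset.mem_univ j)⟩

/-- Finitely many large sets have subsets of positive proportion such that all tuples of different members of their union
are good. -/
theorem positive_all (G s : ℕ) : ∃ c : ℝ, 0 < c ∧ ∃ M₀ : ℕ, ∀ q p a : ℕ, p.Prime → q = p ^ a → M₀ ≤ tt q →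
    ∀ (g : Fin s → ℕ) (A : ∀ i, Set (Fin (g i) → ℤ)), (∀ i, g i ≤ G) → (∀ i, IsStratum M₀ q p a (A i)) →
      ∃ P : ∀ i, Set (Fin (g i) → ℤ), (∀ i, P i ⊆ A i) ∧
        (∀ i, c * ((A i).ncard : ℝ) ≤ ((P i).ncard : ℝ)) ∧
        ∀ (k : ℕ) (t : Fin k → Fin s) (b : ∀ i, Fin (g (t i)) → ℤ), (∀ i, b i ∈ P (t i)) →
          Function.Injective (fun i => (⟨g (t i), b i⟩ : Σ n : ℕ, (Fin n → ℤ))) → GoodTuple q b := by
  obtain ⟨c, hc, M₁, h1⟩ := positive_strata G s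
  refine ⟨c, hc, max M₁ 3, fun q p a hp hqa hMt g A hG hA => ?_⟩
  have ha : 0 < a := a_pos hqa hMt (le_max_right _ _)
  have key := fun i => stratum_aux hp ha hqa hMt (hA i)
  choose lam hl hint hs hA1 hA2 using key
  exact h1 q p a hp ha hqa g lam A (fun i => (hA i).1) hG hl hint
    (fun i K hK0 hK => (Nat.mul_le_mul_right _ (le_max_left _ _)).trans (hs i K hK0 hK)) hA1 hA2

end Pool.Agent.MP_4960c7.NS
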