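import Pool.Agent.Lib.MP_4960c7_ag.NS.Par
import Pool.Agent.Lib.MP_4960c7_ag.AR.CPair

/-!
# Few pairs of real Weil polynomials of given strata are not separated by a prime
-/

namespace Pool.Agent.MP_4960c7.NS

open Polynomial Pool.Agent.MP_4960c7.AR

private theorem PairS_inj {R : Type} {g g' : ℕ} :
    Function.Injective fun x : (Fin g → R) × (Fin g' → R) => Fin.append x.1 x.2 := by
  rintro ⟨x, y⟩ ⟨x', y'⟩ h
  have h' : Fin.append x y = Fin.append x' y' := h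
  refine Prod.ext (funext fun i => ?_) (funext fun i => ?_)
  · have := congrFun h' (Fin.castAdd g' i)
    rwa [Fin.append_left, Fin.append_left] at this
  · have := congrFun h' (Fin.natAdd g i)
    rwa [Fin.append_right, Fin.append_right] at this

/-- few pairs are not separated -/
theorem pair_strat (g g' : ℕ) (hg : 0 < g) (hg' : 0 < g') : ∃ M₀ : ℕ, ∀ M : ℕ, M₀ ≤ M → ∀ q p a : ℕ, p.Prime →
    q = p ^ a → ∀ (e : Fin g → ℕ) (e' : Fin g' → ℕ), (∀ i, M * p ^ e i ≤ tt q ^ (g - (i : ℕ))) →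
    (∀ i, M * p ^ e' i ≤ tt q ^ (g' - (i : ℕ))) →
    ({x : (Fin g → ℤ) × (Fin g' → ℤ) | (IsWeil q x.1 ∧ ∀ i, (p : ℤ) ^ e i ∣ x.1 i) ∧
        (IsWeil q x.2 ∧ ∀ i, (p : ℤ) ^ e' i ∣ x.2 i) ∧ ∀ ℓ : ℕ, ℓ.Prime → ℓ ≠ 2 →
        ¬ (Split q ℓ (fun i => (x.1 i : ZMod ℓ)) ∧ Good q ℓ (fun i => (x.2 i : ZMod ℓ)))}.ncard : ℝ) ≤
      (M : ℝ) ^ (-(2 / 7) : ℝ) *
        (({b : Fin g → ℤ | IsWeil q b ∧ Strat p e Finset.univ b}.ncard : ℝ) *
          ({b : Fin g' → ℤ | IsWeil q b ∧ Strat p e' Finset.univ b}.ncard : ℝ)) := by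
  obtain ⟨c, hc, M₁, hlow⟩ := low g hg
  obtain ⟨c', hc', M₁', hlow'⟩ := low g' hg'
  obtain ⟨δ, hδ0, L, hgood⟩ := pairSet_count g g' hg'
  obtain ⟨B, hBdef⟩ : ∃ B : ℝ, B = (3 * 4 ^ g) ^ g := ⟨_, rfl⟩
  obtain ⟨B', hBdef'⟩ : ∃ B : ℝ, B = (3 * 4 ^ g') ^ g' := ⟨_, rfl⟩
  have hB : 0 < B := by rw [hBdef]; positivity
  have hB' : 0 < B' := by rw [hBdef']; positivity
  obtain ⟨C₃, hC₃⟩ : ∃ C₃ : ℝ, C₃ = (1 / δ ^ 2 + 3 * 2 ^ (g + g')) * (B * B') := ⟨_, rfl⟩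
  obtain ⟨M₂, hM₂⟩ := paramsM (max L 3) (C₃ / (c * c'))
  refine ⟨max (max (max M₁ M₁') M₂) 1, fun M hM q p a hp hqp e e' he he' => ?_⟩
  have hM1 : M₁ ≤ M := (le_max_left _ _).trans ((le_max_left _ _).trans ((le_max_left _ _).trans hM))
  have hM1' : M₁' ≤ M := (le_max_right _ _).trans ((le_max_left _ _).trans ((le_max_left _ _).trans hM))
  have hM0 : 0 < M := lt_of_lt_of_le one_pos ((le_max_right _ _).trans hM)
  obtain ⟨T, Q, hT, hQ3, hT15, hQ15, ht15, hx4, hx1⟩ :=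
    hM₂ M ((le_max_right _ _).trans ((le_max_left _ _).trans hM)) p
  have hqr : (0 : ℝ) < M := by linarith
  have hq0 : 0 < q := by rw [hqp]; exact pow_pos hp.pos a
  set x : ℝ := (M : ℝ) with hxdef
  have hx15 : 0 < x ^ (0.3 : ℝ) := by positivity
  have hTpos : (0 : ℝ) < T.card := lt_of_lt_of_le hx15 hT15
  have hT0 : T.Nonempty := by
    rw [← Finset.card_pos]
    exact_mod_cast hTpos
  have hV : 0 < VS q p e := VS_pos hp.pos e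
  have hV' : 0 < VS q p e' := VS_pos hp.pos e'
  obtain ⟨K, hKdef⟩ : ∃ K : Fin (g + g') → ℕ, K = Fin.append (bd q g) (bd q g') := ⟨_, rfl⟩
  obtain ⟨E, hEdef⟩ : ∃ E : Fin (g + g') → ℕ, E = Fin.append e e' := ⟨_, rfl⟩
  have hKl : ∀ i : Fin g, K (Fin.castAdd g' i) = bd q g i := fun i => by rw [hKdef, Fin.append_left]
  have hKr : ∀ i : Fin g', K (Fin.natAdd g i) = bd q g' i := fun i => by rw [hKdef, Fin.append_right]
  have hEl : ∀ i : Fin g, E (Fin.castAdd g' i) = e i := fun i => by rw [hEdef, Fin.append_left]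
  have hEr : ∀ i : Fin g', E (Fin.natAdd g i) = e' i := fun i => by rw [hEdef, Fin.append_right]
  have hK : ∀ i : Fin (g + g'), Q ^ 3 * p ^ E i ≤ K i := by
    intro i
    refine Fin.addCases (fun i => ?_) (fun i => ?_) i
    · rw [hKl, hEl]
      exact le_bd_of hQ3 he i
    · rw [hKr, hEr]
      exact le_bd_of hQ3 he' i
  have hT' : ∀ ℓ ∈ T, ℓ.Prime ∧ 3 ≤ ℓ ∧ ℓ ≠ p := fun ℓ hℓ =>
    ⟨(hT ℓ hℓ).1, (le_max_right _ _).trans (hT ℓ hℓ).2.1, (hT ℓ hℓ).2.2.1⟩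
  have hTL : ∀ ℓ ∈ T, L ≤ ℓ := fun ℓ hℓ => (le_max_left _ _).trans (hT ℓ hℓ).2.1
  have hsv := sieve_strat T hT0 (fun ℓ hℓ => (hT ℓ hℓ).1) Q (fun ℓ hℓ => (hT ℓ hℓ).2.2.2) δ hδ0
    (fun ℓ => PairSet q g g' ℓ)
    (fun ℓ hℓ => hgood ℓ (hT ℓ hℓ).1 (hTL ℓ hℓ) q (prime_not_dvd hp hqp (hT ℓ hℓ).1 (hT ℓ hℓ).2.2.1))
    p hp (fun ℓ hℓ => (hT ℓ hℓ).2.2.1) E K hK
  have hfin3 : {b : Fin (g + g') → ℤ | (∀ i, |b i| ≤ K i) ∧ (∀ i, (p : ℤ) ^ E i ∣ b i) ∧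
      ∀ ℓ ∈ T, (fun i => (b i : ZMod ℓ)) ∉ PairSet q g g' ℓ}.Finite := by
    refine (Set.Finite.pi' (fun i : Fin (g + g') => Set.finite_Icc (-(K i : ℤ)) (K i))).subset fun b hb i => ?_
    have h := _root_.abs_le.mp (hb.1 i)
    exact ⟨h.1, h.2⟩
  obtain ⟨N, hN⟩ : ∃ N : Set ((Fin g → ℤ) × (Fin g' → ℤ)),
      N = {x : (Fin g → ℤ) × (Fin g' → ℤ) | (IsWeil q x.1 ∧ ∀ i, (p : ℤ) ^ e i ∣ x.1 i) ∧
        (IsWeil q x.2 ∧ ∀ i, (p : ℤ) ^ e' i ∣ x.2 i) ∧ ∀ ℓ : ℕ, ℓ.Prime → ℓ ≠ 2 →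
        ¬ (Split q ℓ (fun i => (x.1 i : ZMod ℓ)) ∧ Good q ℓ (fun i => (x.2 i : ZMod ℓ)))} := ⟨_, rfl⟩
  rw [← hN]
  have hcard : N.ncard ≤
      {b : Fin (g + g') → ℤ | (∀ i, |b i| ≤ K i) ∧ (∀ i, (p : ℤ) ^ E i ∣ b i) ∧
        ∀ ℓ ∈ T, (fun i => (b i : ZMod ℓ)) ∉ PairSet q g g' ℓ}.ncard := by
    rw [← Set.ncard_image_of_injective _ (PairS_inj (R := ℤ) (g := g) (g' := g')), hN]
    refine Set.ncard_le_ncard ?_ hfin3
    rintro _ ⟨⟨y, z⟩, ⟨⟨hy, hye⟩, ⟨hz, hze⟩, hyz⟩, rfl⟩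
    refine ⟨fun i => ?_, fun i => ?_, fun ℓ hℓ hmem => ?_⟩
    · refine Fin.addCases (fun i => ?_) (fun i => ?_) i
      · show |Fin.append y z (Fin.castAdd g' i)| ≤ K (Fin.castAdd g' i)
        rw [Fin.append_left, hKl]
        exact AR.abs_le hy i
      · show |Fin.append y z (Fin.natAdd g i)| ≤ K (Fin.natAdd g i)
        rw [Fin.append_right, hKr]
        exact AR.abs_le hz i
    · refine Fin.addCases (fun i => ?_) (fun i => ?_) i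
      · show (p : ℤ) ^ E (Fin.castAdd g' i) ∣ Fin.append y z (Fin.castAdd g' i)
        rw [Fin.append_left, hEl]
        exact hye i
      · show (p : ℤ) ^ E (Fin.natAdd g i) ∣ Fin.append y z (Fin.natAdd g i)
        rw [Fin.append_right, hEr]
        exact hze i
    · obtain ⟨h1, h2⟩ := hmem
      refine hyz ℓ (hT' ℓ hℓ).1 (by have := (hT' ℓ hℓ).2.1; omega) ⟨?_, ?_⟩
      · simp only [Fin.append_left] at h1
        exact h1
      · simp only [Fin.append_right] at h2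
        exact h2
  have h4 := card_box_strat hp.pos hM0 e he
  have h4' := card_box_strat hp.pos hM0 e' he'
  rw [← hBdef] at h4
  rw [← hBdef'] at h4'
  have h5 := hlow q p hq0 hp.two_le e Finset.univ (fun i => (Nat.mul_le_mul_right _ hM1).trans (he i))
  change c * VS q p e ≤ _ at h5
  have h5' := hlow' q p hq0 hp.two_le e' Finset.univ (fun i => (Nat.mul_le_mul_right _ hM1').trans (he' i))
  change c' * VS q p e' ≤ _ at h5'
  have hQpos : (0 : ℝ) < Q := lt_of_lt_of_le hx15 hQ15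
  have e1 : 1 / (δ ^ 2 * T.card) ≤ 1 / δ ^ 2 / x ^ (0.3 : ℝ) := by
    rw [div_div]
    exact one_div_le_one_div_of_le (by positivity)
      (mul_le_mul_of_nonneg_left hT15 (by positivity))
  have e2 : 3 * 2 ^ (g + g') / (Q : ℝ) ≤ 3 * 2 ^ (g + g') / x ^ (0.3 : ℝ) :=
    div_le_div_of_nonneg_left (by positivity) hx15 hQ15
  have hp0 : (0 : ℝ) ≤ ∏ i : Fin g, (2 * ((bd q g i / p ^ e i : ℕ) : ℝ) + 1) :=
    Finset.prod_nonneg fun i _ => by positivity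
  have hp0' : (0 : ℝ) ≤ ∏ i : Fin g', (2 * ((bd q g' i / p ^ e' i : ℕ) : ℝ) + 1) :=
    Finset.prod_nonneg fun i _ => by positivity
  have hprod : ∏ i, (2 * ((K i / p ^ E i : ℕ) : ℝ) + 1) =
      (∏ i : Fin g, (2 * ((bd q g i / p ^ e i : ℕ) : ℝ) + 1)) *
        ∏ i : Fin g', (2 * ((bd q g' i / p ^ e' i : ℕ) : ℝ) + 1) := by
    rw [Fin.prod_univ_add]
    simp only [hKl, hKr, hEl, hEr]
  have hprod2 : ∏ i, (2 * ((K i / p ^ E i : ℕ) : ℝ) + 1) ≤ (B * VS q p e) * (B' * VS q p e') := by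
    rw [hprod]
    exact mul_le_mul h4 h4' hp0' (by positivity)
  have hprod0 : 0 ≤ ∏ i, (2 * ((K i / p ^ E i : ℕ) : ℝ) + 1) := by
    rw [hprod]
    exact mul_nonneg hp0 hp0'
  have hcardr : (N.ncard : ℝ) ≤ C₃ * (VS q p e * VS q p e') / x ^ (0.3 : ℝ) := by
    refine (show _ ≤ _ by exact_mod_cast hcard).trans (hsv.trans ?_)
    calc (1 / (δ ^ 2 * T.card) + 3 * 2 ^ (g + g') / Q) * ∏ i, (2 * ((K i / p ^ E i : ℕ) : ℝ) + 1)
        ≤ (1 / δ ^ 2 / x ^ (0.3 : ℝ) + 3 * 2 ^ (g + g') / x ^ (0.3 : ℝ)) * ((B * VS q p e) * (B' * VS q p e')) :=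
          mul_le_mul (add_le_add e1 e2) hprod2 hprod0 (by positivity)
      _ = C₃ * (VS q p e * VS q p e') / x ^ (0.3 : ℝ) := by rw [hC₃]; ring
  refine hcardr.trans ?_
  have hx7 : x ^ (0.3 : ℝ) = x ^ (0.3 - 2 / 7 : ℝ) * x ^ (2 / 7 : ℝ) := by
    rw [← Real.rpow_add hqr]
    norm_num
  have hcc : 0 < c * c' := mul_pos hc hc'
  have hC3 : C₃ ≤ c * c' * x ^ (0.3 - 2 / 7 : ℝ) := by
    rw [div_le_iff₀ hcc] at hx4
    linarith
  have hx7pos : 0 < x ^ (2 / 7 : ℝ) := by positivity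
  have hx8pos : 0 < x ^ (0.3 - 2 / 7 : ℝ) := by positivity
  calc C₃ * (VS q p e * VS q p e') / x ^ (0.3 : ℝ) ≤
      (c * c' * x ^ (0.3 - 2 / 7 : ℝ)) * (VS q p e * VS q p e') / x ^ (0.3 : ℝ) := by
        gcongr
    _ = x ^ (-(2 / 7) : ℝ) * ((c * VS q p e) * (c' * VS q p e')) := by
        rw [hx7, Real.rpow_neg hqr.le]
        field_simp
    _ ≤ _ := by
        refine mul_le_mul_of_nonneg_left ?_ (by positivity)
        exact mul_le_mul h5 h5' (by positivity) (Nat.cast_nonneg _)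

end Pool.Agent.MP_4960c7.NS
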