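import Pool.Agent.Lib.MP_4960c7_ag.NS.SingS
import Pool.Agent.Lib.MP_4960c7_ag.NS.PairS
import Pool.Agent.Lib.MP_4960c7_ag.AR.CFin

/-!
# Almost all tuples of real Weil polynomials of given strata
-/

namespace Pool.Agent.MP_4960c7.NS

open Polynomial Pool.Agent.MP_4960c7.AR

/-- Almost all tuples of members of the sets `A i` are good, if `A i` lies between the set of the real Weil
polynomials of degree `g i` whose `j`-th coefficient is exactly divisible by `p ^ e i j` for all `j`, and the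
set of those whose `j`-th coefficient is divisible by `p ^ e i j`. -/
theorem density_strat (G : ℕ) : ∃ M₀ : ℕ, ∀ M : ℕ, M₀ ≤ M → ∀ q p a : ℕ, p.Prime → q = p ^ a →
    ∀ (k : ℕ) (g : Fin k → ℕ) (e : ∀ i, Fin (g i) → ℕ) (A : ∀ i, Set (Fin (g i) → ℤ)),
      (∀ i, 0 < g i) → (∀ i, g i ≤ G) →
      (∀ i j, M * p ^ e i j ≤ tt q ^ (g i - (j : ℕ))) →
      (∀ i, ∀ b, IsWeil q b → Strat p (e i) Finset.univ b → b ∈ A i) →
      (∀ i, ∀ b ∈ A i, IsWeil q b ∧ ∀ j, (p : ℤ) ^ e i j ∣ b j) →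
      {b : ∀ i, Fin (g i) → ℤ | ∀ i, b i ∈ A i}.Finite ∧ (∀ i, 0 < (A i).ncard) ∧
      ({b : ∀ i, Fin (g i) → ℤ | (∀ i, b i ∈ A i) ∧ ¬ GoodTuple q b}.ncard : ℝ) ≤
        (k : ℝ) ^ 2 * (M : ℝ) ^ (-(2 / 7) : ℝ) * ∏ i, ((A i).ncard : ℝ) := by
  classical
  have hs : ∀ g : ℕ, ∃ M₀ : ℕ, 0 < g → ∀ M : ℕ, M₀ ≤ M → ∀ q p a : ℕ, p.Prime → q = p ^ a →
    ∀ e : Fin g → ℕ, (∀ i, M * p ^ e i ≤ tt q ^ (g - (i : ℕ))) →
    ({b : Fin g → ℤ | IsWeil q b ∧ (∀ i, (p : ℤ) ^ e i ∣ b i) ∧ ¬ Generic q b}.ncard : ℝ) ≤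
      (M : ℝ) ^ (-(2 / 7) : ℝ) *
        ({b : Fin g → ℤ | IsWeil q b ∧ Strat p e Finset.univ b}.ncard : ℝ) := by
    intro g
    by_cases hg : 0 < g
    · obtain ⟨M₀, h⟩ := single_strat g hg
      exact ⟨M₀, fun _ => h⟩
    · exact ⟨0, fun h => absurd h hg⟩
  have hl : ∀ g : ℕ, ∃ M₀ : ℕ, 0 < g → ∀ q p : ℕ, 0 < q → 2 ≤ p → ∀ e : Fin g → ℕ,
      (∀ i, M₀ * p ^ e i ≤ tt q ^ (g - (i : ℕ))) →
      (0 : ℝ) < ({b : Fin g → ℤ | IsWeil q b ∧ Strat p e Finset.univ b}.ncard : ℝ) := by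
    intro g
    by_cases hg : 0 < g
    · obtain ⟨c, hc, M₀, h⟩ := low g hg
      refine ⟨M₀, fun _ q p hq hp e he => lt_of_lt_of_le ?_ (h q p hq hp e Finset.univ he)⟩
      exact mul_pos hc (VS_pos (by omega) e)
    · exact ⟨0, fun h => absurd h hg⟩
  have hp : ∀ g g' : ℕ, ∃ M₀ : ℕ, 0 < g → 0 < g' → ∀ M : ℕ, M₀ ≤ M → ∀ q p a : ℕ, p.Prime →
    q = p ^ a → ∀ (e : Fin g → ℕ) (e' : Fin g' → ℕ), (∀ i, M * p ^ e i ≤ tt q ^ (g - (i : ℕ))) →
    (∀ i, M * p ^ e' i ≤ tt q ^ (g' - (i : ℕ))) →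
    ({x : (Fin g → ℤ) × (Fin g' → ℤ) | (IsWeil q x.1 ∧ ∀ i, (p : ℤ) ^ e i ∣ x.1 i) ∧
        (IsWeil q x.2 ∧ ∀ i, (p : ℤ) ^ e' i ∣ x.2 i) ∧ NotSep q x.1 x.2}.ncard : ℝ) ≤
      (M : ℝ) ^ (-(2 / 7) : ℝ) *
        (({b : Fin g → ℤ | IsWeil q b ∧ Strat p e Finset.univ b}.ncard : ℝ) *
          ({b : Fin g' → ℤ | IsWeil q b ∧ Strat p e' Finset.univ b}.ncard : ℝ)) := by
    intro g g'
    by_cases hg : 0 < g
    · by_cases hg' : 0 < g'
      · obtain ⟨M₀, h⟩ := pair_strat g g' hg hg'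
        exact ⟨M₀, fun _ _ => h⟩
      · exact ⟨0, fun _ h => absurd h hg'⟩
    · exact ⟨0, fun h => absurd h hg⟩
  choose Q₁ hQ₁ using hs
  choose Q₂ hQ₂ using hp
  choose Q₃ hQ₃ using hl
  refine ⟨1 + ((Finset.range (G + 1)).sup Q₁ + (Finset.range (G + 1)).sup Q₃ +
    (Finset.range (G + 1)).sup fun g => (Finset.range (G + 1)).sup fun g' => Q₂ g g'), ?_⟩
  intro M hM q p a hpp hqp k g e A hg hgG he hA1 hA2
  have hq0 : 0 < q := by rw [hqp]; exact pow_pos hpp.pos a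
  have hmem : ∀ i, g i ∈ Finset.range (G + 1) := fun i => Finset.mem_range.2 (by have := hgG i; omega)
  have hq1 : ∀ i, Q₁ (g i) ≤ M := by
    intro i
    have h1 : Q₁ (g i) ≤ (Finset.range (G + 1)).sup Q₁ := Finset.le_sup (hmem i)
    omega
  have hq3 : ∀ i, Q₃ (g i) ≤ M := by
    intro i
    have h1 : Q₃ (g i) ≤ (Finset.range (G + 1)).sup Q₃ := Finset.le_sup (hmem i)
    omega
  have hq2 : ∀ i j, Q₂ (g i) (g j) ≤ M := by
    intro i j
    have h1 : Q₂ (g i) (g j) ≤ (Finset.range (G + 1)).sup fun g' => Q₂ (g i) g' :=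
      Finset.le_sup (f := fun g' => Q₂ (g i) g') (hmem j)
    have h2 : ((Finset.range (G + 1)).sup fun g' => Q₂ (g i) g') ≤
        (Finset.range (G + 1)).sup fun g => (Finset.range (G + 1)).sup fun g' => Q₂ g g' :=
      Finset.le_sup (f := fun g => (Finset.range (G + 1)).sup fun g' => Q₂ g g') (hmem i)
    omega
  set r : ℝ := (M : ℝ) ^ (-(2 / 7) : ℝ) with hr
  have hr0 : 0 ≤ r := by positivity
  have hAfin : ∀ i, (A i).Finite := fun i => (finite_weil q (g i)).subset fun b hb => (hA2 i b hb).1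
  have hord : ∀ i, ({b : Fin (g i) → ℤ | IsWeil q b ∧ Strat p (e i) Finset.univ b}.ncard : ℝ) ≤
      ((A i).ncard : ℝ) := by
    intro i
    have h1 := Set.ncard_le_ncard (s := {b : Fin (g i) → ℤ | IsWeil q b ∧ Strat p (e i) Finset.univ b}) (t := A i)
      (fun b hb => hA1 i b hb.1 hb.2) (hAfin i)
    exact_mod_cast h1
  have hApos : ∀ i, 0 < (A i).ncard := by
    intro i
    have h1 := hQ₃ (g i) (hg i) q p hq0 hpp.two_le (e i) (fun j => (Nat.mul_le_mul_right _ (hq3 i)).trans (he i j))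
    have h2 := h1.trans_le (hord i)
    exact_mod_cast h2
  let A' : ∀ i, Finset (Fin (g i) → ℤ) := fun i => (hAfin i).toFinset
  have hA'card : ∀ i, (A' i).card = (A i).ncard := fun i => (Set.ncard_eq_toFinset_card _ (hAfin i)).symm
  have hmemA' : ∀ i b, b ∈ A' i ↔ b ∈ A i := fun i b => Set.Finite.mem_toFinset _
  have hfinA : {b : ∀ i, Fin (g i) → ℤ | ∀ i, b i ∈ A i}.Finite := Set.Finite.pi' fun i => hAfin i
  refine ⟨hfinA, hApos, ?_⟩
  -- the single and the pair exceptions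
  have hEfin : ∀ i, {b : Fin (g i) → ℤ | IsWeil q b ∧ (∀ j, (p : ℤ) ^ e i j ∣ b j) ∧ ¬ Generic q b}.Finite :=
    fun i => (finite_weil q (g i)).subset fun b hb => hb.1
  have hPfin : ∀ i j, {x : (Fin (g i) → ℤ) × (Fin (g j) → ℤ) | (IsWeil q x.1 ∧ ∀ l, (p : ℤ) ^ e i l ∣ x.1 l) ∧
      (IsWeil q x.2 ∧ ∀ l, (p : ℤ) ^ e j l ∣ x.2 l) ∧ NotSep q x.1 x.2}.Finite := by
    intro i j
    refine ((finite_weil q (g i)).prod (finite_weil q (g j))).subset ?_
    rintro ⟨x, y⟩ ⟨h1, h2, _⟩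
    exact ⟨h1.1, h2.1⟩
  let S : Fin k × Fin k → Finset (∀ i, Fin (g i) → ℤ) := fun s =>
    if s.1 = s.2 then (Fintype.piFinset A').filter fun b => b s.1 ∈ (hEfin s.1).toFinset
    else (Fintype.piFinset A').filter fun b => (b s.1, b s.2) ∈ (hPfin s.1 s.2).toFinset
  have hcov : {b : ∀ i, Fin (g i) → ℤ | (∀ i, b i ∈ A i) ∧ ¬ GoodTuple q b} ⊆
      ((Finset.univ.biUnion S : Finset (∀ i, Fin (g i) → ℤ)) : Set (∀ i, Fin (g i) → ℤ)) := by
    rintro b ⟨hb, hbad⟩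
    have hpi : b ∈ Fintype.piFinset A' := by
      rw [Fintype.mem_piFinset]
      exact fun i => (hmemA' i _).2 (hb i)
    rw [Finset.mem_coe, Finset.mem_biUnion]
    by_contra hcon
    push Not at hcon
    apply hbad
    refine ⟨fun i => ?_, fun i j hij => ?_⟩
    · by_contra hi
      refine hcon (i, i) (Finset.mem_univ _) ?_
      simp only [S, if_true]
      rw [Finset.mem_filter, Set.Finite.mem_toFinset]
      exact ⟨hpi, (hA2 i _ (hb i)).1, (hA2 i _ (hb i)).2, hi⟩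
    · refine field_ne_of_sep hq0 fun hns => ?_
      refine hcon (i, j) (Finset.mem_univ _) ?_
      simp only [S]
      rw [if_neg hij, Finset.mem_filter, Set.Finite.mem_toFinset]
      exact ⟨hpi, hA2 i _ (hb i), hA2 j _ (hb j), hns⟩
  have hSle : ∀ s : Fin k × Fin k, ((S s).card : ℝ) ≤ r * ∏ i, ((A i).ncard : ℝ) := by
    rintro ⟨i, j⟩
    by_cases hij : i = j
    · subst hij
      have h1 : S (i, i) = (Fintype.piFinset A').filter fun b => b i ∈ (hEfin i).toFinset := by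
        simp only [S, if_true]
      rw [h1]
      have h2 := cnt_one A' i (hEfin i).toFinset
      rw [← Set.ncard_eq_toFinset_card _ (hEfin i)] at h2
      have h3 := hQ₁ (g i) (hg i) M (hq1 i) q p a hpp hqp (e i) (he i)
      generalize {b : Fin (g i) → ℤ | IsWeil q b ∧ (∀ j, (p : ℤ) ^ e i j ∣ b j) ∧ ¬ Generic q b}.ncard = N at h2 h3
      have h4 : (N : ℝ) ≤ r * ((A i).ncard : ℝ) :=
        h3.trans (mul_le_mul_of_nonneg_left (hord i) hr0)
      have h5 : (0 : ℝ) ≤ ∏ l ∈ Finset.univ.erase i, ((A l).ncard : ℝ) :=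
        Finset.prod_nonneg fun l _ => Nat.cast_nonneg _
      calc (((Fintype.piFinset A').filter fun b => b i ∈ (hEfin i).toFinset).card : ℝ)
          ≤ (((∏ l ∈ Finset.univ.erase i, (A' l).card) * N : ℕ) : ℝ) := by
            exact_mod_cast h2
        _ = (∏ l ∈ Finset.univ.erase i, ((A l).ncard : ℝ)) * (N : ℝ) := by
            rw [Nat.cast_mul, Nat.cast_prod]
            congr 1
            exact Finset.prod_congr rfl fun l _ => by rw [hA'card]
        _ ≤ (∏ l ∈ Finset.univ.erase i, ((A l).ncard : ℝ)) * (r * ((A i).ncard : ℝ)) :=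
            mul_le_mul_of_nonneg_left h4 h5
        _ = r * ∏ i, ((A i).ncard : ℝ) := by
            rw [← Finset.mul_prod_erase Finset.univ _ (Finset.mem_univ i)]
            ring
    · have h1 : S (i, j) = (Fintype.piFinset A').filter fun b => (b i, b j) ∈ (hPfin i j).toFinset := by
        simp only [S]
        rw [if_neg hij]
      rw [h1]
      have h2 := cnt_two A' i j hij (hPfin i j).toFinset
      rw [← Set.ncard_eq_toFinset_card _ (hPfin i j)] at h2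
      have h3 := hQ₂ (g i) (g j) (hg i) (hg j) M (hq2 i j) q p a hpp hqp (e i) (e j) (he i) (he j)
      generalize {x : (Fin (g i) → ℤ) × (Fin (g j) → ℤ) | (IsWeil q x.1 ∧ ∀ l, (p : ℤ) ^ e i l ∣ x.1 l) ∧
        (IsWeil q x.2 ∧ ∀ l, (p : ℤ) ^ e j l ∣ x.2 l) ∧ NotSep q x.1 x.2}.ncard = N at h2 h3
      have h4 : (N : ℝ) ≤ r * (((A i).ncard : ℝ) * ((A j).ncard : ℝ)) := by
        refine h3.trans (mul_le_mul_of_nonneg_left ?_ hr0)
        exact mul_le_mul (hord i) (hord j) (Nat.cast_nonneg _) (Nat.cast_nonneg _)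
      have h5 : (0 : ℝ) ≤ ∏ l ∈ (Finset.univ.erase i).erase j, ((A l).ncard : ℝ) :=
        Finset.prod_nonneg fun l _ => Nat.cast_nonneg _
      have hj : j ∈ Finset.univ.erase i := Finset.mem_erase.2 ⟨fun h => hij h.symm, Finset.mem_univ j⟩
      calc (((Fintype.piFinset A').filter fun b => (b i, b j) ∈ (hPfin i j).toFinset).card : ℝ)
          ≤ (((∏ l ∈ (Finset.univ.erase i).erase j, (A' l).card) * N : ℕ) : ℝ) := by
            exact_mod_cast h2
        _ = (∏ l ∈ (Finset.univ.erase i).erase j, ((A l).ncard : ℝ)) * (N : ℝ) := by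
            rw [Nat.cast_mul, Nat.cast_prod]
            congr 1
            exact Finset.prod_congr rfl fun l _ => by rw [hA'card]
        _ ≤ (∏ l ∈ (Finset.univ.erase i).erase j, ((A l).ncard : ℝ)) * (r * (((A i).ncard : ℝ) * ((A j).ncard : ℝ))) :=
            mul_le_mul_of_nonneg_left h4 h5
        _ = r * ∏ i, ((A i).ncard : ℝ) := by
            rw [← Finset.mul_prod_erase Finset.univ _ (Finset.mem_univ i), ← Finset.mul_prod_erase _ _ hj]
            ring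
  have hcard := Set.ncard_le_ncard hcov (Finset.finite_toSet _)
  rw [Set.ncard_coe_finset] at hcard
  have hcard2 := hcard.trans Finset.card_biUnion_le
  calc ({b : ∀ i, Fin (g i) → ℤ | (∀ i, b i ∈ A i) ∧ ¬ GoodTuple q b}.ncard : ℝ)
      ≤ ((∑ s : Fin k × Fin k, (S s).card : ℕ) : ℝ) := by exact_mod_cast hcard2
    _ = ∑ s : Fin k × Fin k, ((S s).card : ℝ) := by rw [Nat.cast_sum]
    _ ≤ ∑ _s : Fin k × Fin k, r * ∏ i, ((A i).ncard : ℝ) := Finset.sum_le_sum fun s _ => hSle s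
    _ = (k : ℝ) ^ 2 * r * ∏ i, ((A i).ncard : ℝ) := by
        rw [Finset.sum_const, Finset.card_univ, Fintype.card_prod, Fintype.card_fin, nsmul_eq_mul]
        push_cast
        ring

end Pool.Agent.MP_4960c7.NS
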