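import Mathlib

/-!
# Multiplicities of primes in algebraic integers
-/

namespace Pool.Agent.MP_4960c7.NS

open NumberField UniqueFactorizationMonoid

open Classical in
/-- the multiplicity of the prime `P` in `y` -/
noncomputable def cnt {K : Type} [Field K] [NumberField K] (P : Ideal (𝓞 K)) (y : 𝓞 K) : ℕ :=
  (normalizedFactors (Ideal.span {y})).count P

variable {K : Type} [Field K] [NumberField K] {P : Ideal (𝓞 K)}

omit [NumberField K] in
theorem span_ne {y : 𝓞 K} (hy : y ≠ 0) : Ideal.span {y} ≠ (0 : Ideal (𝓞 K)) := by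
  rw [Ideal.zero_eq_bot, Ne, Ideal.span_singleton_eq_bot]
  exact hy

theorem le_cnt (hP : P.IsPrime) (hP0 : P ≠ ⊥) {y : 𝓞 K} (hy : y ≠ 0) (n : ℕ) :
    n ≤ cnt P y ↔ y ∈ P ^ n := by
  classical
  have hirr : Irreducible P := (Ideal.prime_of_isPrime hP0 hP).irreducible
  have h1 := emultiplicity_eq_count_normalizedFactors hirr (span_ne hy)
  rw [normalize_eq] at h1
  rw [← Ideal.dvd_span_singleton, pow_dvd_iff_le_emultiplicity, h1]
  unfold cnt
  rw [Nat.cast_le]

theorem cnt_mul {y z : 𝓞 K} (hy : y ≠ 0) (hz : z ≠ 0) : cnt P (y * z) = cnt P y + cnt P z := by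
  unfold cnt
  rw [← Ideal.span_singleton_mul_span_singleton, normalizedFactors_mul (span_ne hy) (span_ne hz),
    Multiset.count_add]

theorem cnt_pow (y : 𝓞 K) (n : ℕ) : cnt P (y ^ n) = n * cnt P y := by
  unfold cnt
  rw [← Ideal.span_singleton_pow, normalizedFactors_pow, Multiset.count_nsmul]

end Pool.Agent.MP_4960c7.NS
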