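import Pool.Agent.Lib.MP_4960c7_ag.AR.ERt
import Pool.Agent.Lib.MP_4960c7_ag.NS.NVal

/-!
# Weil integers with given multiplicities at the primes above `p`
-/

namespace Pool.Agent.MP_4960c7.NS

open Polynomial NumberField UniqueFactorizationMonoid Pool.Agent.MP_4960c7.AR

/-- The integers of `K` with all absolute values `√(p^a)` which divide `p^a` and whose multiplicities at the primes `P`
above `p` are in `R P`. -/
def SlW (p a : ℕ) (K : Type) [Field K] [NumberField K] (R : Ideal (𝓞 K) → Finset ℕ) : Set (𝓞 K) :=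
  {x | (∃ x' : 𝓞 K, x * x' = ((p ^ a : ℕ) : 𝓞 K)) ∧ (∀ φ : K →+* ℂ, ‖φ (x : K)‖ ^ 2 = ((p ^ a : ℕ) : ℝ)) ∧
    ∀ P : Ideal (𝓞 K), P.IsPrime → ((p : ℕ) : 𝓞 K) ∈ P → cnt P x ∈ R P}

/-- The primes above `p`. -/
private noncomputable def TT (K : Type) [Field K] [NumberField K] (p : ℕ) : Finset (Ideal (𝓞 K)) :=
  IsDedekindDomain.primesOverFinset (Ideal.span {(p : ℤ)}) (𝓞 K)

private theorem TT_max {p : ℕ} (hp : p.Prime) : (Ideal.span {(p : ℤ)}).IsMaximal :=
  PrincipalIdealRing.isMaximal_of_irreducible (Nat.prime_iff_prime_int.1 hp).irreducible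

private theorem TT_bot {p : ℕ} (hp : p.Prime) : Ideal.span {(p : ℤ)} ≠ ⊥ := by
  rw [Ne, Ideal.span_singleton_eq_bot]
  exact_mod_cast hp.ne_zero

private theorem TT_card {K : Type} [Field K] [NumberField K] {p : ℕ} (hp : p.Prime) :
    (TT K p).card ≤ Module.finrank ℚ K := by
  have := TT_max hp
  exact Ideal.card_primesOverFinset_le_finrank (𝓞 K) ℚ K (TT_bot hp)

private theorem TT_mem {K : Type} [Field K] [NumberField K] {p : ℕ} (hp : p.Prime) (P : Ideal (𝓞 K)) :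
    P ∈ TT K p ↔ P.IsPrime ∧ ((p : ℕ) : 𝓞 K) ∈ P := by
  have hm := TT_max hp
  unfold TT
  rw [IsDedekindDomain.mem_primesOverFinset_iff (TT_bot hp)]
  constructor
  · rintro ⟨hP, ⟨h⟩⟩
    refine ⟨hP, ?_⟩
    have h1 : (p : ℤ) ∈ Ideal.comap (algebraMap ℤ (𝓞 K)) P := by
      have h2 : Ideal.span {(p : ℤ)} = Ideal.comap (algebraMap ℤ (𝓞 K)) P := h
      rw [← h2]
      exact Ideal.mem_span_singleton_self _
    rw [Ideal.mem_comap] at h1
    simpa using h1
  · rintro ⟨hP, h⟩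
    refine ⟨hP, ⟨?_⟩⟩
    apply hm.eq_of_le
    · intro h1
      have h2 : (1 : ℤ) ∈ Ideal.comap (algebraMap ℤ (𝓞 K)) P := by
        have : Ideal.comap (algebraMap ℤ (𝓞 K)) P = ⊤ := h1
        rw [this]
        trivial
      rw [Ideal.mem_comap, map_one] at h2
      exact hP.ne_top ((Ideal.eq_top_iff_one P).2 h2)
    · rw [Ideal.span_singleton_le_iff_mem]
      show (p : ℤ) ∈ Ideal.comap (algebraMap ℤ (𝓞 K)) P
      rw [Ideal.mem_comap]
      simpa using h

private theorem ne_zero {K : Type} [Field K] [NumberField K] {p a : ℕ} (hp : p.Prime)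
    {R : Ideal (𝓞 K) → Finset ℕ} {x : 𝓞 K} (hx : x ∈ SlW p a K R) : x ≠ 0 := by
  rintro rfl
  obtain ⟨⟨x', h1⟩, -⟩ := hx
  rw [zero_mul] at h1
  have h2 : p ^ a = 0 := by exact_mod_cast h1.symm
  exact (pow_ne_zero a hp.ne_zero) h2

private theorem nf_mem {K : Type} [Field K] [NumberField K] {p a : ℕ} (hp : p.Prime)
    {R : Ideal (𝓞 K) → Finset ℕ} {x : 𝓞 K} (hx : x ∈ SlW p a K R) {Q : Ideal (𝓞 K)}
    (hQ : Q ∈ normalizedFactors (Ideal.span {x})) : Q ∈ TT K p := by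
  have h1 := prime_of_normalized_factor Q hQ
  have h2 : Q.IsPrime := Ideal.isPrime_of_prime h1
  have h3 : x ∈ Q := Ideal.dvd_span_singleton.1 (dvd_of_mem_normalizedFactors hQ)
  obtain ⟨⟨x', hx'⟩, -⟩ := hx
  have h4 : ((p ^ a : ℕ) : 𝓞 K) ∈ Q := by
    rw [← hx']
    exact Q.mul_mem_right _ h3
  rw [Nat.cast_pow] at h4
  exact (TT_mem hp Q).2 ⟨h2, h2.mem_of_pow_mem a h4⟩

private theorem unit {K : Type} [Field K] [NumberField K] {p a : ℕ} (hp : p.Prime)
    {R : Ideal (𝓞 K) → Finset ℕ} {x y : 𝓞 K} (hx : x ∈ SlW p a K R) (hy : y ∈ SlW p a K R)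
    (h : ∀ P ∈ TT K p, cnt P x = cnt P y) : ((x : K) / (y : K)) ^ (2 * Module.finrank ℚ K).factorial = 1 := by
  classical
  have hx0 := ne_zero hp hx
  have hy0 := ne_zero hp hy
  have hnf : normalizedFactors (Ideal.span {x}) = normalizedFactors (Ideal.span {y}) := by
    ext Q
    by_cases hQ : Q ∈ TT K p
    · have h1 := h Q hQ
      unfold cnt at h1
      convert h1
    · have h1 : Q ∉ normalizedFactors (Ideal.span {x}) := fun h => hQ (nf_mem hp hx h)
      have h2 : Q ∉ normalizedFactors (Ideal.span {y}) := fun h => hQ (nf_mem hp hy h)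
      rw [Multiset.count_eq_zero_of_notMem h1, Multiset.count_eq_zero_of_notMem h2]
  have hass : Associated x y := by
    rw [← Ideal.span_singleton_eq_span_singleton, ← associated_iff_eq]
    exact (associated_iff_normalizedFactors_eq_normalizedFactors (span_ne hx0) (span_ne hy0)).2 hnf
  obtain ⟨u, hu⟩ := hass.symm
  obtain ⟨-, hxn, -⟩ := hx
  obtain ⟨-, hyn, -⟩ := hy
  have hy0' : (y : K) ≠ 0 := by exact_mod_cast hy0
  have e : (x : K) / (y : K) = ((u : 𝓞 K) : K) := by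
    rw [div_eq_iff hy0', ← hu]
    push_cast
    ring
  rw [e]
  have hn : ∀ φ : K →+* ℂ, ‖φ ((u : 𝓞 K) : K)‖ = 1 := by
    intro φ
    have h1 := hxn φ
    have h2 := hyn φ
    rw [← hu] at h1
    push_cast at h1
    rw [map_mul, norm_mul, mul_pow, h2] at h1
    have hq : (((p ^ a : ℕ) : ℕ) : ℝ) ≠ 0 := by
      exact_mod_cast pow_ne_zero a hp.ne_zero
    have h3 : ‖φ ((u : 𝓞 K) : K)‖ ^ 2 = 1 := by
      have h4 : (((p ^ a : ℕ) : ℕ) : ℝ) * ‖φ ((u : 𝓞 K) : K)‖ ^ 2 = (((p ^ a : ℕ) : ℕ) : ℝ) * 1 := by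
        rw [mul_one]
        exact_mod_cast h1
      exact mul_left_cancel₀ hq h4
    exact (pow_eq_one_iff_of_nonneg (norm_nonneg _) (by norm_num)).1 h3
  obtain ⟨n, hn0, hn1⟩ := NumberField.Embeddings.pow_eq_one_of_norm_eq_one K ℂ (RingOfIntegers.isIntegral_coe (u : 𝓞 K)) hn
  exact pow_factorial hn0 hn1

theorem slW_card {K : Type} [Field K] [NumberField K] {p : ℕ} (hp : p.Prime) (a N : ℕ) (hN : 0 < N)
    (R : Ideal (𝓞 K) → Finset ℕ) (hR : ∀ P, (R P).card ≤ N) :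
    (SlW p a K R).Finite ∧ (SlW p a K R).ncard ≤
      N ^ Module.finrank ℚ K * (2 * Module.finrank ℚ K).factorial := by
  classical
  let T := TT K p
  let Sig : 𝓞 K → (T → ℕ) := fun x P => cnt (P : Ideal (𝓞 K)) x
  let x0 : (T → ℕ) → 𝓞 K := fun S =>
    if h : ∃ y ∈ SlW p a K R, Sig y = S then h.choose else 1
  let f : 𝓞 K → (T → ℕ) × K := fun x => (Sig x, (x : K) / (x0 (Sig x) : K))
  let RR : Finset K := (nthRoots (2 * Module.finrank ℚ K).factorial (1 : K)).toFinset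
  let TS : Finset (T → ℕ) := Fintype.piFinset fun P : T => R P
  have hx0 : ∀ x ∈ SlW p a K R, x0 (Sig x) ∈ SlW p a K R ∧ Sig (x0 (Sig x)) = Sig x := by
    intro x hx
    have h : ∃ y ∈ SlW p a K R, Sig y = Sig x := ⟨x, hx, rfl⟩
    have e : x0 (Sig x) = h.choose := dif_pos h
    rw [e]
    exact h.choose_spec
  have hmaps : ∀ x ∈ SlW p a K R, f x ∈ ((TS ×ˢ RR : Finset ((T → ℕ) × K)) : Set _) := by
    intro x hx
    rw [Finset.mem_coe, Finset.mem_product]
    refine ⟨?_, ?_⟩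
    · show Sig x ∈ Fintype.piFinset fun P : T => R P
      rw [Fintype.mem_piFinset]
      intro P
      have hP := (TT_mem hp _).1 P.2
      exact hx.2.2 P hP.1 hP.2
    · rw [Multiset.mem_toFinset, mem_nthRoots (Nat.factorial_pos _)]
      obtain ⟨h1, h2⟩ := hx0 x hx
      refine unit hp hx h1 fun P hP => ?_
      exact (congrFun h2 ⟨P, hP⟩).symm
  have hinj : Set.InjOn f (SlW p a K R) := by
    intro x hx y hy hxy
    have h1 : Sig x = Sig y := congrArg Prod.fst hxy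
    have h2 : (x : K) / (x0 (Sig x) : K) = (y : K) / (x0 (Sig y) : K) := congrArg Prod.snd hxy
    rw [h1] at h2
    have h3 : (x0 (Sig y) : K) ≠ 0 := by
      have := ne_zero hp (hx0 y hy).1
      exact_mod_cast this
    have h4 : (x : K) = (y : K) := (div_left_inj' h3).1 h2
    exact_mod_cast h4
  have hfin : ((TS ×ˢ RR : Finset ((T → ℕ) × K)) : Set ((T → ℕ) × K)).Finite := Finset.finite_toSet _
  refine ⟨Set.Finite.of_injOn hmaps hinj hfin, ?_⟩
  refine (Set.ncard_le_ncard_of_injOn f hmaps hinj hfin).trans ?_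
  rw [Set.ncard_coe_finset, Finset.card_product]
  apply Nat.mul_le_mul
  · show (Fintype.piFinset fun P : T => R P).card ≤ _
    rw [Fintype.card_piFinset]
    refine (Finset.prod_le_pow_card Finset.univ (fun P : T => (R (P : Ideal (𝓞 K))).card) N
      fun P _ => hR P).trans ?_
    rw [Finset.card_univ, Fintype.card_coe]
    exact Nat.pow_le_pow_right hN (TT_card hp)
  · exact (Multiset.toFinset_card_le _).trans (card_nthRoots _ _)

end Pool.Agent.MP_4960c7.NS
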