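import Pool.Agent.Lib.MP_4960c7_ag.AR.CDefs

/-!
# A root of the Weil polynomial as an algebraic integer of the splitting field
-/

namespace Pool.Agent.MP_4960c7.NS

open Polynomial NumberField Pool.Agent.MP_4960c7.AR

private theorem degree_lt' {g : ℕ} (b : Fin g → ℤ) :
    (∑ i : Fin g, C (b i) * X ^ (i : ℕ) : ℤ[X]).degree < (g : ℕ) := by
  refine (degree_sum_le _ _).trans_lt ?_
  refine (Finset.sup_lt_iff (WithBot.bot_lt_coe g)).2 ?_
  intro i _
  exact (degree_C_mul_X_pow_le _ _).trans_lt (WithBot.coe_lt_coe.2 i.2)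

private theorem monic' {g : ℕ} (b : Fin g → ℤ) : (pol b).Monic :=
  monic_X_pow_add (degree_lt' b)

private theorem natDegree' {g : ℕ} (b : Fin g → ℤ) : (pol b).natDegree = g := by
  apply natDegree_eq_of_degree_eq_some
  unfold pol
  rw [degree_add_eq_left_of_degree_lt, degree_X_pow]
  rw [degree_X_pow]
  exact degree_lt' b

/-- a root of `z^2 - r z + q` with real `r`, `r^2 ≤ 4 q` has `|z|^2 = q` -/
private theorem norm' (q : ℝ) (z r : ℂ) (him : r.im = 0) (hre : r.re ^ 2 ≤ 4 * q)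
    (h : z ^ 2 - r * z + (q : ℂ) = 0) : ‖z‖ ^ 2 = q := by
  rw [Complex.sq_norm, Complex.normSq_apply]
  have h1 := congrArg Complex.re h
  have h2 := congrArg Complex.im h
  simp [pow_two, him] at h1 h2
  have h3 : z.im * (2 * z.re - r.re) = 0 := by linarith
  rcases mul_eq_zero.mp h3 with h4 | h4
  · rw [h4] at h1 ⊢
    have h5 : (2 * z.re - r.re) ^ 2 ≤ 0 := by nlinarith
    have h6 : 2 * z.re - r.re = 0 := by
      have := sq_nonneg (2 * z.re - r.re)
      exact pow_eq_zero_iff (two_ne_zero) |>.mp (le_antisymm h5 this)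
    have h7 : r.re = 2 * z.re := by linarith
    rw [h7] at h1
    nlinarith
  · have h7 : r.re = 2 * z.re := by linarith
    rw [h7] at h1
    nlinarith

theorem exists_root' {g q : ℕ} (hg : 0 < g) (hq0 : q ≠ 0)
    (b : Fin g → ℤ) (hW : IsWeil q b) [NumberField (weilField q b)] :
    ∃ x x' : 𝓞 (weilField q b), x * x' = (q : 𝓞 (weilField q b)) ∧ aeval (x + x') (pol b) = 0 ∧
      (∀ φ : weilField q b →+* ℂ, ‖φ (x : weilField q b)‖ ^ 2 = q) ∧
      aeval (((x : weilField q b) : ℂ) + q / ((x : weilField q b) : ℂ)) (pol b) = 0 := by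
  have hqC : (q : ℂ) ≠ 0 := Nat.cast_ne_zero.mpr hq0
  -- a complex root
  obtain ⟨β, hβ⟩ : ∃ β : ℂ, aeval β (pol b) = 0 := by
    have hdeg : ((pol b).map (Int.castRingHom ℂ)).degree ≠ 0 := by
      rw [(monic' b).degree_map, degree_eq_natDegree (monic' b).ne_zero, natDegree']
      exact_mod_cast hg.ne'
    obtain ⟨β, hβ⟩ := IsAlgClosed.exists_root _ hdeg
    refine ⟨β, ?_⟩
    rw [IsRoot.def, eval_map] at hβ
    rw [aeval_def]
    exact hβ
  obtain ⟨x, hx⟩ : ∃ x : ℂ, 1 * (x * x) + (-β) * x + (q : ℂ) = 0 :=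
    exists_quadratic_eq_zero one_ne_zero (IsAlgClosed.exists_eq_mul_self _)
  have hx0 : x ≠ 0 := by
    rintro rfl
    simp at hx
    exact hq0 hx
  have hsum : x + q / x = β := by
    field_simp
    linear_combination hx
  have hx'0 : (q : ℂ) / x ≠ 0 := div_ne_zero hqC hx0
  have hsum' : (q : ℂ) / x + q / (q / x) = β := by
    rw [div_div_cancel₀ hqC, add_comm, hsum]
  have hmem : x ∈ weilField q b := IntermediateField.subset_adjoin _ _ ⟨hx0, by rw [hsum, hβ]⟩
  have hmem' : (q : ℂ) / x ∈ weilField q b :=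
    IntermediateField.subset_adjoin _ _ ⟨hx'0, by rw [hsum', hβ]⟩
  -- integrality
  have hβint : IsIntegral ℤ β := ⟨pol b, monic' b, by rw [← aeval_def]; exact hβ⟩
  have key : ∀ y : ℂ, y ^ 2 - β * y + (q : ℂ) = 0 → IsIntegral ℤ y := by
    intro y hy
    have h1 : IsIntegral (integralClosure ℤ ℂ) y := by
      refine ⟨X ^ 2 - C (⟨β, hβint⟩ : integralClosure ℤ ℂ) * X + C (q : integralClosure ℤ ℂ), ?_, ?_⟩
      · monicity!
      · rw [eval₂_add, eval₂_sub, eval₂_mul, eval₂_pow, eval₂_X, eval₂_C, eval₂_C, map_natCast]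
        exact hy
    exact isIntegral_trans y h1
  have hxint : IsIntegral ℤ x := key x (by linear_combination hx)
  have hx'int : IsIntegral ℤ ((q : ℂ) / x) := key _ (by
    rw [← hsum]
    field_simp
    ring)
  let K := weilField q b
  have hXint : IsIntegral ℤ (⟨x, hmem⟩ : K) := by
    rw [← isIntegral_algebraMap_iff (algebraMap K ℂ).injective]
    exact hxint
  have hX'int : IsIntegral ℤ (⟨(q : ℂ) / x, hmem'⟩ : K) := by
    rw [← isIntegral_algebraMap_iff (algebraMap K ℂ).injective]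
    exact hx'int
  let X₀ : 𝓞 K := ⟨⟨x, hmem⟩, hXint⟩
  let X₁ : 𝓞 K := ⟨⟨(q : ℂ) / x, hmem'⟩, hX'int⟩
  have hinj : Function.Injective (fun y : 𝓞 K => ((y : K) : ℂ)) := fun y z h =>
    RingOfIntegers.ext (Subtype.ext h)
  have hmul : X₀ * X₁ = (q : 𝓞 K) := by
    apply hinj
    simp only [map_mul, map_natCast]
    change x * ((q : ℂ) / x) = _
    rw [mul_div_cancel₀ _ hx0]
    simp
  have hroot : aeval (X₀ + X₁) (pol b) = 0 := by
    have h1 : ((algebraMap K ℂ).comp (algebraMap (𝓞 K) K)) (aeval (X₀ + X₁) (pol b)) = 0 := by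
      rw [aeval_def, hom_eval₂]
      rw [← hβ, aeval_def]
      rw [← hsum]
      congr 1
    have h2 : Function.Injective ((algebraMap K ℂ).comp (algebraMap (𝓞 K) K)) :=
      (algebraMap K ℂ).injective.comp RingOfIntegers.coe_injective
    exact h2 (by rw [h1, map_zero])
  refine ⟨X₀, X₁, hmul, hroot, ?_, ?_⟩
  · -- absolute values
    intro φ
    have hφβ : aeval (φ ((X₀ : K) + (X₁ : K))) (pol b) = 0 := by
      have h1 : φ (algebraMap (𝓞 K) K (aeval (X₀ + X₁) (pol b))) = 0 := by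
        rw [hroot, map_zero, map_zero]
      rw [aeval_def, hom_eval₂, hom_eval₂] at h1
      rw [← h1, aeval_def]
      congr 1
      exact RingHom.ext_int _ _
    obtain ⟨him, hre⟩ := hW _ hφβ
    refine norm' q _ _ him hre ?_
    have h2 : ((X₀ : K)) * (X₁ : K) = (q : K) := by
      have := congrArg (algebraMap (𝓞 K) K) hmul
      rwa [map_mul, map_natCast] at this
    have h3 : φ (X₀ : K) * φ (X₁ : K) = (q : ℂ) := by
      rw [← map_mul, h2, map_natCast]
    rw [map_add]
    push_cast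
    linear_combination (-1 : ℂ) * h3
  · change aeval (x + (q : ℂ) / x) (pol b) = 0
    rw [hsum, hβ]

end Pool.Agent.MP_4960c7.NS
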