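import Pool.Agent.Lib.MP_4960c7_ag.NS.Newt
import Pool.Agent.Lib.MP_4960c7_ag.NS.NVal

/-!
# The multiplicity of a root of a real Weil polynomial is given by a slope of its polygon
-/

namespace Pool.Agent.MP_4960c7.NS

open Polynomial NumberField Pool.Agent.MP_4960c7.AR

/-- the coefficient of `X ^ (g - K)` in `pol b` -/
private def cN {g : ℕ} (b : Fin g → ℤ) (K : ℕ) : ℤ :=
  if h : 0 < K ∧ K ≤ g then b ⟨g - K, by omega⟩ else 1

private theorem cN_pos {g : ℕ} (b : Fin g → ℤ) {K : ℕ} (h0 : 0 < K) (h : K ≤ g) :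
    cN b K = b ⟨g - K, by omega⟩ := dif_pos ⟨h0, h⟩

private theorem cN_zero {g : ℕ} (b : Fin g → ℤ) : cN b 0 = 1 := dif_neg (fun h => lt_irrefl _ h.1)

private theorem aeval_pol {R : Type*} [CommRing R] {g : ℕ} (b : Fin g → ℤ) (β : R) :
    aeval β (pol b) = ∑ k ∈ Finset.range (g + 1), (cN b k : R) * β ^ (g - k) := by
  rw [Finset.sum_range_succ', cN_zero, add_comm]
  unfold pol
  simp only [map_add, map_pow, map_sum, map_mul, aeval_X, eq_intCast, map_intCast]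
  refine congrArg₂ (· + ·) (by simp) ?_
  rw [← Finset.sum_range_reflect, ← Fin.sum_univ_eq_sum_range
    (fun j => ((cN b (g - 1 - j + 1) : ℤ) : R) * β ^ (g - (g - 1 - j + 1))) g]
  refine Finset.sum_congr rfl fun i _ => ?_
  have hi := i.2
  have h1 : g - 1 - (i : ℕ) + 1 = g - (i : ℕ) := by omega
  have h2 : g - (g - (i : ℕ)) = (i : ℕ) := by omega
  rw [h1, h2, cN_pos b (by omega) (by omega)]
  congr 2
  congr 1
  exact Fin.ext h2.symm

variable {K : Type} [Field K] [NumberField K] {P : Ideal (𝓞 K)}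

omit [NumberField K] in
private theorem not_mem_of_not_dvd {p : ℕ} (hp : p.Prime) (hP : P.IsPrime) (hpP : ((p : ℕ) : 𝓞 K) ∈ P) {u : ℤ}
    (hu : ¬ (p : ℤ) ∣ u) : ((u : ℤ) : 𝓞 K) ∉ P := by
  intro h
  have hcop : IsCoprime (p : ℤ) u := (Nat.prime_iff_prime_int.mp hp).coprime_iff_not_dvd.mpr hu
  obtain ⟨r, s, hrs⟩ := hcop
  refine hP.ne_top ((Ideal.eq_top_iff_one P).2 ?_)
  have h6 : ((r : ℤ) : 𝓞 K) * ((p : ℕ) : 𝓞 K) + ((s : ℤ) : 𝓞 K) * ((u : ℤ) : 𝓞 K) = 1 := by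
    exact_mod_cast congrArg (Int.cast : ℤ → 𝓞 K) hrs
  rw [← h6]
  exact P.add_mem (P.mul_mem_left _ hpP) (P.mul_mem_left _ h)

private theorem ne_bot {p : ℕ} (hp : p.Prime) (hpP : ((p : ℕ) : 𝓞 K) ∈ P) : P ≠ ⊥ := by
  rintro rfl
  rw [Ideal.mem_bot] at hpP
  exact hp.ne_zero (by exact_mod_cast hpP)

private theorem cnt_exact {p : ℕ} (hp : p.Prime) (hP : P.IsPrime) (hpP : ((p : ℕ) : 𝓞 K) ∈ P) {c : ℤ} {n : ℕ}
    (h1 : (p : ℤ) ^ n ∣ c) (h2 : ¬ (p : ℤ) ^ (n + 1) ∣ c) :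
    ((c : ℤ) : 𝓞 K) ≠ 0 ∧ cnt P ((c : ℤ) : 𝓞 K) = n * cnt P ((p : ℕ) : 𝓞 K) := by
  obtain ⟨u, rfl⟩ := h1
  have hu : ¬ (p : ℤ) ∣ u := fun h => h2 (by rw [pow_succ]; exact mul_dvd_mul_left _ h)
  have hu0 : ((u : ℤ) : 𝓞 K) ≠ 0 := by
    intro h
    have h3 : u = 0 := by exact_mod_cast h
    exact hu (h3 ▸ dvd_zero _)
  have hp0 : ((p : ℕ) : 𝓞 K) ≠ 0 := by exact_mod_cast hp.ne_zero
  have hpn : (((p : ℕ) : 𝓞 K)) ^ n ≠ 0 := pow_ne_zero _ hp0
  have h3 : ((((p : ℤ) ^ n * u : ℤ)) : 𝓞 K) = ((p : ℕ) : 𝓞 K) ^ n * ((u : ℤ) : 𝓞 K) := by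
    push_cast
    rfl
  rw [h3]
  refine ⟨mul_ne_zero hpn hu0, ?_⟩
  rw [cnt_mul hpn hu0, cnt_pow]
  have h4 : cnt P ((u : ℤ) : 𝓞 K) = 0 := by
    by_contra h5
    have h6 : 1 ≤ cnt P ((u : ℤ) : 𝓞 K) := Nat.one_le_iff_ne_zero.2 h5
    rw [le_cnt hP (ne_bot hp hpP) hu0, pow_one] at h6
    exact not_mem_of_not_dvd hp hP hpP hu h6
  rw [h4, add_zero]

theorem slope_mem {p a g : ℕ} (hp : p.Prime) {lam : ℕ → ℝ} (hl : IsPolygon g lam)
    (hint : ∀ K, K ≤ g → IsVertex g lam K → ∃ n : ℕ, (a : ℝ) * lam K = n) (b : Fin g → ℤ)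
    (hd : ∀ i, (p : ℤ) ^ ex a g lam i ∣ b i)
    (hv : ∀ i : Fin g, IsVertex g lam (g - (i : ℕ)) → ¬ (p : ℤ) ^ (ex a g lam i + 1) ∣ b i)
    (hP : P.IsPrime) (hpP : ((p : ℕ) : 𝓞 K) ∈ P) {β : 𝓞 K} (hβ0 : β ≠ 0) (hβ : aeval β (pol b) = 0)
    (hw : 2 * cnt P β < a * cnt P ((p : ℕ) : 𝓞 K)) :
    ∃ j, j < g ∧ (cnt P β : ℝ) = a * cnt P ((p : ℕ) : 𝓞 K) * (lam (j + 1) - lam j) := by
  classical
  by_contra hcon
  push Not at hcon
  have hP0 := ne_bot hp hpP
  have hp0 : ((p : ℕ) : 𝓞 K) ≠ 0 := by exact_mod_cast hp.ne_zero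
  obtain ⟨e, he⟩ : ∃ e, e = cnt P ((p : ℕ) : 𝓞 K) := ⟨_, rfl⟩
  obtain ⟨w, hww⟩ : ∃ w, w = cnt P β := ⟨_, rfl⟩
  rw [← he, ← hww] at hcon hw
  have hw' : 2 * (w : ℝ) < a * e := by exact_mod_cast hw
  have hex : ∃ j, j = g ∨ (w : ℝ) < a * e * (lam (j + 1) - lam j) := ⟨g, Or.inl rfl⟩
  obtain ⟨V, hVdef⟩ : ∃ V, V = Nat.find hex := ⟨_, rfl⟩
  have hV1 := Nat.find_spec hex
  rw [← hVdef] at hV1
  have hVg : V ≤ g := by rw [hVdef]; exact Nat.find_min' hex (Or.inl rfl)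
  have hVlt : ∀ j, j < V → a * e * (lam (j + 1) - lam j) < w := by
    intro j hj
    rw [hVdef] at hj
    have h1 := Nat.find_min hex hj
    push Not at h1
    exact lt_of_le_of_ne h1.2 (fun h => hcon j (by omega) h.symm)
  have hae : (0 : ℝ) ≤ a * e := by positivity
  have hVgt : ∀ n, V + n < g → (w : ℝ) < a * e * (lam (V + n + 1) - lam (V + n)) := by
    intro n
    induction n with
    | zero =>
      intro h
      rcases hV1 with h1 | h1
      · omega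
      · exact h1
    | succ n ih =>
      intro h
      have h1 := ih (by omega)
      have h2 := hl.convex (V + n) (by omega)
      have h3 := mul_le_mul_of_nonneg_left h2 hae
      exact h1.trans_le h3
  -- the values of the linear function
  obtain ⟨F, hF⟩ : ∃ F : ℕ → ℝ, F = fun k => a * e * lam k + (g - k : ℝ) * w := ⟨_, rfl⟩
  have hF1 : ∀ n, V + (n + 1) ≤ g → F V < F (V + (n + 1)) := by
    intro n
    induction n with
    | zero =>
      intro h
      have h1 := hVgt 0 (by omega)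
      rw [hF]
      simp only [add_zero, zero_add] at h1 ⊢
      push_cast
      linarith
    | succ n ih =>
      intro h
      have h1 := hVgt (n + 1) (by omega)
      have h2 := ih (by omega)
      rw [hF] at h2 ⊢
      simp only at h2 ⊢
      push_cast at h2 ⊢
      rw [show V + (n + 1 + 1) = V + (n + 1) + 1 by ring]
      linarith
  have hF2 : ∀ n, n + 1 ≤ V → F V < F (V - (n + 1)) := by
    intro n
    induction n with
    | zero =>
      intro h
      have h1 := hVlt (V - 1) (by omega)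
      rw [show V - 1 + 1 = V by omega] at h1
      rw [hF]
      simp only [zero_add]
      rw [Nat.cast_sub (by omega)]
      push_cast
      linarith
    | succ n ih =>
      intro h
      have h1 := hVlt (V - (n + 2)) (by omega)
      have h2 := ih (by omega)
      rw [show V - (n + 2) + 1 = V - (n + 1) by omega] at h1
      rw [hF] at h2 ⊢
      simp only at h2 ⊢
      rw [Nat.cast_sub (by omega)] at h2 ⊢
      push_cast at h2 ⊢
      rw [show V - (n + 1 + 1) = V - (n + 2) by omega]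
      linarith
  have hFK : ∀ k, k ≤ g → k ≠ V → F V < F k := by
    intro k hk hkV
    rcases lt_or_gt_of_ne hkV with h | h
    · have h1 := hF2 (V - k - 1) (by omega)
      rwa [show V - (V - k - 1 + 1) = k by omega] at h1
    · have h1 := hF1 (k - V - 1) (by omega)
      rwa [show V + (k - V - 1 + 1) = k by omega] at h1
  -- V = 0 or V is a vertex
  have hvert : V = 0 ∨ IsVertex g lam V := by
    rcases Nat.eq_zero_or_pos V with h | h
    · exact Or.inl h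
    · refine Or.inr ⟨h, ?_⟩
      have h1 := hVlt (V - 1) (by omega)
      rw [show V - 1 + 1 = V by omega] at h1
      rcases lt_or_eq_of_le hVg with h2 | h2
      · refine Or.inl ⟨h2, ?_⟩
        have h3 := hVgt 0 (by omega)
        simp only [add_zero] at h3
        have h4 := h1.trans h3
        exact lt_of_mul_lt_mul_left h4 hae
      · refine Or.inr ⟨h2, ?_⟩
        rw [h2] at h1
        by_contra h3
        push Not at h3
        have h4 := mul_le_mul_of_nonneg_left h3 hae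
        linarith
  -- exact valuation of the coefficient at V
  obtain ⟨nV, hnV, hc0, hcV⟩ : ∃ nV : ℕ, (a : ℝ) * lam V = nV ∧ ((cN b V : ℤ) : 𝓞 K) ≠ 0 ∧
      cnt P ((cN b V : ℤ) : 𝓞 K) = nV * e := by
    rcases hvert with h | h
    · refine ⟨0, by rw [h, hl.zero]; simp, ?_, ?_⟩
      · rw [h, cN_zero]; simp
      · rw [h, cN_zero, zero_mul]
        by_contra h5
        have h6 : 1 ≤ cnt P (((1 : ℤ) : ℤ) : 𝓞 K) := Nat.one_le_iff_ne_zero.2 h5
        rw [le_cnt hP hP0 (by simp), pow_one, Int.cast_one] at h6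
        exact hP.ne_top ((Ideal.eq_top_iff_one P).2 h6)
    · obtain ⟨n, hn⟩ := hint V hVg h
      have hV0 := h.1
      have h1 := hd ⟨g - V, by omega⟩
      have h2 := hv ⟨g - V, by omega⟩
      unfold ex at h1 h2
      have h3 : g - (g - V) = V := by omega
      simp only [h3, hn, Nat.ceil_natCast] at h1 h2
      rw [← cN_pos b hV0 hVg] at h1 h2
      obtain ⟨h4, h5⟩ := cnt_exact hp hP hpP h1 (h2 h)
      exact ⟨n, hn, h4, by rw [h5, he]⟩
  obtain ⟨N, hN⟩ : ∃ N, N = nV * e + (g - V) * w := ⟨_, rfl⟩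
  have hNF : (N : ℝ) = F V := by
    rw [hN, hF]
    push_cast [Nat.cast_sub hVg]
    rw [← hnV]
    ring
  have hβn : ∀ n, β ^ n ≠ 0 := fun n => pow_ne_zero n hβ0
  have htV : ((cN b V : ℤ) : 𝓞 K) * β ^ (g - V) ∉ P ^ (N + 1) := by
    rw [← le_cnt hP hP0 (mul_ne_zero hc0 (hβn _)), cnt_mul hc0 (hβn _), cnt_pow, hcV, ← hww, ← hN]
    omega
  have htK : ∀ k ∈ (Finset.range (g + 1)).erase V, ((cN b k : ℤ) : 𝓞 K) * β ^ (g - k) ∈ P ^ (N + 1) := by
    intro k hk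
    rw [Finset.mem_erase, Finset.mem_range] at hk
    have hkg : k ≤ g := by omega
    have h1 : (p : ℤ) ^ ⌈(a : ℝ) * lam k⌉₊ ∣ cN b k := by
      rcases Nat.eq_zero_or_pos k with h | h
      · rw [h, hl.zero, mul_zero, Nat.ceil_zero, pow_zero]
        exact one_dvd _
      · have h2 := hd ⟨g - k, by omega⟩
        unfold ex at h2
        have h3 : g - (g - k) = k := by omega
        simp only [h3] at h2
        rw [← cN_pos b h hkg] at h2
        exact h2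
    obtain ⟨u, hu⟩ := h1
    have h2 : ((cN b k : ℤ) : 𝓞 K) * β ^ (g - k) =
        ((u : ℤ) : 𝓞 K) * (((p : ℕ) : 𝓞 K) ^ ⌈(a : ℝ) * lam k⌉₊ * β ^ (g - k)) := by
      rw [hu]
      push_cast
      ring
    rw [h2]
    refine Ideal.mul_mem_left _ _ ?_
    have hpn : ((p : ℕ) : 𝓞 K) ^ ⌈(a : ℝ) * lam k⌉₊ ≠ 0 := pow_ne_zero _ hp0
    rw [← le_cnt hP hP0 (mul_ne_zero hpn (hβn _)), cnt_mul hpn (hβn _), cnt_pow, cnt_pow, ← he, ← hww]
    have h3 := hFK k hkg hk.1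
    rw [← hNF, hF] at h3
    simp only at h3
    have h4 := Nat.le_ceil ((a : ℝ) * lam k)
    have h5 : (N : ℝ) < ⌈(a : ℝ) * lam k⌉₊ * e + (g - k : ℝ) * w := by
      have h6 : (a : ℝ) * e * lam k ≤ ⌈(a : ℝ) * lam k⌉₊ * e := by
        have h7 := mul_le_mul_of_nonneg_right h4 (Nat.cast_nonneg (α := ℝ) e)
        linarith
      linarith
    have h6 : ((N : ℕ) : ℝ) < ((⌈(a : ℝ) * lam k⌉₊ * e + (g - k) * w : ℕ) : ℝ) := by
      push_cast [Nat.cast_sub hkg]
      exact h5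
    have h7 : N < ⌈(a : ℝ) * lam k⌉₊ * e + (g - k) * w := by exact_mod_cast h6
    omega
  rw [aeval_pol, ← Finset.add_sum_erase _ _ (Finset.mem_range.2 (show V < g + 1 by omega))] at hβ
  have h1 := Ideal.sum_mem _ htK
  have h2 : ((cN b V : ℤ) : 𝓞 K) * β ^ (g - V) = -∑ k ∈ (Finset.range (g + 1)).erase V, ((cN b k : ℤ) : 𝓞 K) * β ^ (g - k) :=
    eq_neg_of_add_eq_zero_left hβ
  exact htV (h2 ▸ (P ^ (N + 1)).neg_mem h1)

end Pool.Agent.MP_4960c7.NS
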