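import Pool.Agent.Lib.MP_4960c7_ag.AR.EDeg
import Pool.Agent.Lib.MP_4960c7_ag.NS.NSlope
import Pool.Agent.Lib.MP_4960c7_ag.NS.NCnt
import Pool.Agent.Lib.MP_4960c7_ag.NS.NRoot

/-!
# Boundedly many real Weil polynomials with a given Newton polygon have the same splitting field
-/

namespace Pool.Agent.MP_4960c7.NS

open Polynomial NumberField Pool.Agent.MP_4960c7.AR

/-- the bound for the number of polynomials with a given Newton polygon and splitting field -/
def CN (g : ℕ) : ℕ := (2 * g + 1) ^ DE g * (2 * DE g).factorial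

/-- the possible multiplicities of a root at a prime at which `p ^ a` has multiplicity `E` -/
private noncomputable def RE (g : ℕ) (lam : ℕ → ℝ) (E : ℕ) : Finset ℕ :=
  (Finset.range g).image (fun j => ⌊(E : ℝ) * (lam (j + 1) - lam j)⌋₊) ∪
    (Finset.range g).image (fun j => ⌊(E : ℝ) * (1 - (lam (j + 1) - lam j))⌋₊) ∪ {⌊(E : ℝ) / 2⌋₊}

private theorem RE_card (g : ℕ) (lam : ℕ → ℝ) (E : ℕ) : (RE g lam E).card ≤ 2 * g + 1 := by
  unfold RE
  refine (Finset.card_union_le _ _).trans ?_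
  have h1 := Finset.card_union_le ((Finset.range g).image (fun j => ⌊(E : ℝ) * (lam (j + 1) - lam j)⌋₊))
    ((Finset.range g).image (fun j => ⌊(E : ℝ) * (1 - (lam (j + 1) - lam j))⌋₊))
  have h2 := Finset.card_image_le (s := Finset.range g) (f := fun j => ⌊(E : ℝ) * (lam (j + 1) - lam j)⌋₊)
  have h3 := Finset.card_image_le (s := Finset.range g) (f := fun j => ⌊(E : ℝ) * (1 - (lam (j + 1) - lam j))⌋₊)
  rw [Finset.card_range] at h2 h3
  rw [Finset.card_singleton]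
  omega

private theorem RE_mem1 {g : ℕ} {lam : ℕ → ℝ} {E n j : ℕ} (hj : j < g) (h : (n : ℝ) = E * (lam (j + 1) - lam j)) :
    n ∈ RE g lam E := by
  unfold RE
  refine Finset.mem_union_left _ (Finset.mem_union_left _ (Finset.mem_image.2 ⟨j, Finset.mem_range.2 hj, ?_⟩))
  rw [← h, Nat.floor_natCast]

private theorem RE_mem2 {g : ℕ} {lam : ℕ → ℝ} {E n j : ℕ} (hj : j < g)
    (h : (n : ℝ) = E * (1 - (lam (j + 1) - lam j))) : n ∈ RE g lam E := by
  unfold RE
  refine Finset.mem_union_left _ (Finset.mem_union_right _ (Finset.mem_image.2 ⟨j, Finset.mem_range.2 hj, ?_⟩))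
  rw [← h, Nat.floor_natCast]

private theorem RE_mem3 {g : ℕ} {lam : ℕ → ℝ} {E n : ℕ} (h : E = 2 * n) : n ∈ RE g lam E := by
  unfold RE
  refine Finset.mem_union_right _ (Finset.mem_singleton.2 ?_)
  rw [h]
  push_cast
  rw [mul_div_cancel_left₀ _ (by norm_num : (2 : ℝ) ≠ 0), Nat.floor_natCast]

variable {K : Type} [Field K] [NumberField K] {P : Ideal (𝓞 K)}

private theorem not_both (hP : P.IsPrime) (hP0 : P ≠ ⊥) {x x' : 𝓞 K} (hx : x ≠ 0) (hx' : x' ≠ 0) {n : ℕ}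
    (h : x + x' ∈ P ^ n) (h1 : cnt P x < n) (h2 : n ≤ cnt P x') : False := by
  have h3 : x' ∈ P ^ n := (le_cnt hP hP0 hx' n).1 h2
  have h4 : x ∈ P ^ n := by
    have h5 := (P ^ n).sub_mem h h3
    rwa [add_sub_cancel_right] at h5
  have h5 := (le_cnt hP hP0 hx n).2 h4
  omega

private theorem mem_RE {p a g : ℕ} (hp : p.Prime) {lam : ℕ → ℝ} (hl : IsPolygon g lam)
    (hint : ∀ K, K ≤ g → IsVertex g lam K → ∃ n : ℕ, (a : ℝ) * lam K = n) (b : Fin g → ℤ)
    (hd : ∀ i, (p : ℤ) ^ ex a g lam i ∣ b i)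
    (hv : ∀ i : Fin g, IsVertex g lam (g - (i : ℕ)) → ¬ (p : ℤ) ^ (ex a g lam i + 1) ∣ b i)
    (hP : P.IsPrime) (hpP : ((p : ℕ) : 𝓞 K) ∈ P) {x x' : 𝓞 K} (hxx : x * x' = ((p ^ a : ℕ) : 𝓞 K))
    (hβ : aeval (x + x') (pol b) = 0) : cnt P x ∈ RE g lam (a * cnt P ((p : ℕ) : 𝓞 K)) := by
  have hp0 : ((p : ℕ) : 𝓞 K) ≠ 0 := by exact_mod_cast hp.ne_zero
  have hP0 : P ≠ ⊥ := by
    rintro rfl
    rw [Ideal.mem_bot] at hpP
    exact hp0 hpP
  have hxx0 : x * x' ≠ 0 := by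
    rw [hxx]
    exact_mod_cast pow_ne_zero a hp.ne_zero
  have hx0 := left_ne_zero_of_mul hxx0
  have hx0' := right_ne_zero_of_mul hxx0
  obtain ⟨E, hE⟩ : ∃ E, E = a * cnt P ((p : ℕ) : 𝓞 K) := ⟨_, rfl⟩
  rw [← hE]
  have hsum : cnt P x + cnt P x' = E := by
    rw [← cnt_mul hx0 hx0', hxx, Nat.cast_pow, cnt_pow, hE]
  have hbig : (∀ n, 2 * n ≤ E + 1 → x + x' ∈ P ^ n) → cnt P x ∈ RE g lam E := by
    intro h
    apply RE_mem3
    rcases lt_trichotomy (cnt P x) (cnt P x') with h1 | h1 | h1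
    · exact (not_both hP hP0 hx0 hx0' (h (cnt P x + 1) (by omega)) (Nat.lt_succ_self _) h1).elim
    · omega
    · have h2 := h (cnt P x' + 1) (by omega)
      rw [add_comm x x'] at h2
      exact (not_both hP hP0 hx0' hx0 h2 (Nat.lt_succ_self _) h1).elim
  by_cases hβ0 : x + x' = 0
  · exact hbig fun n _ => by rw [hβ0]; exact (P ^ n).zero_mem
  · by_cases hw : 2 * cnt P (x + x') < E
    · rw [hE] at hw
      obtain ⟨j, hj, hjw⟩ := slope_mem hp hl hint b hd hv hP hpP hβ0 hβ hw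
      rw [← hE] at hw
      have hmem := (le_cnt hP hP0 hβ0 (cnt P (x + x'))).1 le_rfl
      have hnot : x + x' ∉ P ^ (cnt P (x + x') + 1) := by
        rw [← le_cnt hP hP0 hβ0]
        omega
      have h1 : cnt P (x + x') ≤ cnt P x := by
        by_contra h
        push Not at h
        exact not_both hP hP0 hx0 hx0' hmem h (by omega)
      have h2 : cnt P (x + x') ≤ cnt P x' := by
        by_contra h
        push Not at h
        have h3 : x' + x ∈ P ^ cnt P (x + x') := by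
          rw [add_comm x' x]
          exact hmem
        exact not_both hP hP0 hx0' hx0 h3 h (by omega)
      have h3 : cnt P x = cnt P (x + x') ∨ cnt P x' = cnt P (x + x') := by
        by_contra h
        push Not at h
        refine hnot ((P ^ _).add_mem ((le_cnt hP hP0 hx0 _).1 ?_) ((le_cnt hP hP0 hx0' _).1 ?_)) <;> omega
      have hE' : (E : ℝ) = a * cnt P ((p : ℕ) : 𝓞 K) := by rw [hE]; push_cast; ring
      rcases h3 with h3 | h3
      · refine RE_mem1 hj ?_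
        rw [h3, hjw, hE']
      · refine RE_mem2 hj ?_
        have h4 : cnt P x = E - cnt P (x + x') := by omega
        have h5 : ((cnt P x : ℕ) : ℝ) = E - cnt P (x + x') := by
          rw [h4, Nat.cast_sub (by omega)]
        rw [h5, hjw, ← hE']
        ring
    · refine hbig fun n hn => (le_cnt hP hP0 hβ0 n).1 ?_
      omega

private theorem monic {g : ℕ} (b : Fin g → ℤ) : (pol b).Monic :=
  monic_X_pow_add (degree_sum_fin_lt b)

private theorem coeff {g : ℕ} (b : Fin g → ℤ) (i : Fin g) : (pol b).coeff (i : ℕ) = b i := by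
  unfold pol
  rw [coeff_add, coeff_X_pow, if_neg (Nat.ne_of_lt i.2), zero_add, finsetSum_coeff, Finset.sum_eq_single i]
  · rw [coeff_C_mul, coeff_X_pow, if_pos rfl, mul_one]
  · intro j _ hj
    rw [coeff_C_mul, coeff_X_pow, if_neg (fun h => hj (Fin.ext h.symm)), mul_zero]
  · intro h
    exact absurd (Finset.mem_univ i) h

private theorem inj {g : ℕ} {b b' : Fin g → ℤ} (hb : Irreducible (pol b)) (hb' : Irreducible (pol b')) {β : ℂ}
    (h : aeval β (pol b) = 0) (h' : aeval β (pol b') = 0) : b = b' := by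
  have hint : IsIntegral ℤ β := ⟨pol b, monic b, h⟩
  have key : ∀ c : Fin g → ℤ, Irreducible (pol c) → aeval β (pol c) = 0 → pol c = minpoly ℤ β := by
    intro c hc h0
    have h1 : minpoly ℤ β ∣ pol c := minpoly.isIntegrallyClosed_dvd hint h0
    have h2 : ¬ IsUnit (minpoly ℤ β) := minpoly.not_isUnit ℤ β
    have h3 : Associated (minpoly ℤ β) (pol c) := (hc.dvd_iff.1 h1).resolve_left h2 |>.symm
    exact (eq_of_monic_of_associated (minpoly.monic hint) (monic c) h3).symm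
  have h4 : pol b = pol b' := (key b hb h).trans (key b' hb' h').symm
  funext i
  rw [← coeff b i, h4, coeff]

private theorem exS {g p a : ℕ} (hg : 0 < g) (hp : p.Prime) (ha : 0 < a) {lam : ℕ → ℝ} (hl : IsPolygon g lam)
    (hint : ∀ K, K ≤ g → IsVertex g lam K → ∃ n : ℕ, (a : ℝ) * lam K = n)
    (K : IntermediateField ℚ ℂ) [NumberField K] (b : Fin g → ℤ) (hW : IsWeil (p ^ a) b)
    (hN : HasNewton p a g lam (wp (p ^ a) b)) (hK : weilField (p ^ a) b = K) :
    ∃ x ∈ SlW p a K (fun P => RE g lam (a * cnt P ((p : ℕ) : 𝓞 K))),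
      aeval (((x : K) : ℂ) + ((p ^ a : ℕ) : ℂ) / ((x : K) : ℂ)) (pol b) = 0 := by
  subst hK
  obtain ⟨x, x', h1, h2, h3, h4⟩ := exists_root' hg (pow_ne_zero a hp.ne_zero) b hW
  obtain ⟨h5, h6⟩ := (newt_iff hp ha hl hint b).1 hN
  exact ⟨x, ⟨⟨x', h1⟩, h3, fun P hP hpP => mem_RE hp hl hint b h5 h6 hP hpP h1 h2⟩, h4⟩

theorem fiber_newt {g p a : ℕ} (hg : 0 < g) (hp : p.Prime) (ha : 0 < a) {lam : ℕ → ℝ} (hl : IsPolygon g lam)
    (hint : ∀ K, K ≤ g → IsVertex g lam K → ∃ n : ℕ, (a : ℝ) * lam K = n) (K : IntermediateField ℚ ℂ) :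
    {b : Fin g → ℤ | IsWeil (p ^ a) b ∧ HasNewton p a g lam (wp (p ^ a) b) ∧ Irreducible (pol b) ∧
      weilField (p ^ a) b = K}.ncard ≤ CN g := by
  classical
  obtain ⟨S, hS⟩ : ∃ S, S = {b : Fin g → ℤ | IsWeil (p ^ a) b ∧ HasNewton p a g lam (wp (p ^ a) b) ∧
    Irreducible (pol b) ∧ weilField (p ^ a) b = K} := ⟨_, rfl⟩
  rw [← hS]
  rcases Set.eq_empty_or_nonempty S with h0 | ⟨b0, hb0⟩
  · rw [h0, Set.ncard_empty]
    exact Nat.zero_le _
  rw [hS] at hb0
  have hq0 : 0 < p ^ a := pow_pos hp.pos a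
  have h1 := finrank_weilField hq0 b0
  rw [hb0.2.2.2] at h1
  have : FiniteDimensional ℚ K := h1.1
  have : NumberField K := { }
  have h2 : ∀ b ∈ S, ∃ x ∈ SlW p a K (fun P => RE g lam (a * cnt P ((p : ℕ) : 𝓞 K))),
      aeval (((x : K) : ℂ) + ((p ^ a : ℕ) : ℂ) / ((x : K) : ℂ)) (pol b) = 0 := by
    intro b hb
    rw [hS] at hb
    exact exS hg hp ha hl hint K b hb.1 hb.2.1 hb.2.2.2
  let f : (Fin g → ℤ) → 𝓞 K := fun b => if h : b ∈ S then (h2 b h).choose else 0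
  have hf : ∀ (b : Fin g → ℤ) (h : b ∈ S), f b = (h2 b h).choose := fun b h => dif_pos h
  have h3 := slW_card (K := K) hp a (2 * g + 1) (Nat.succ_pos _) (fun P => RE g lam (a * cnt P ((p : ℕ) : 𝓞 K)))
    (fun P => RE_card g lam _)
  refine (Set.ncard_le_ncard_of_injOn f (t := SlW p a K (fun P => RE g lam (a * cnt P ((p : ℕ) : 𝓞 K))))
    ?_ ?_ h3.1).trans (h3.2.trans ?_)
  · intro b hb
    rw [hf b hb]
    exact (h2 b hb).choose_spec.1
  · intro b hb b' hb' hh
    rw [hf b hb, hf b' hb'] at hh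
    have h4 := (h2 b hb).choose_spec.2
    have h5 := (h2 b' hb').choose_spec.2
    rw [← hh] at h5
    rw [hS] at hb hb'
    exact inj hb.2.2.1 hb'.2.2.1 h4 h5
  · unfold CN
    exact Nat.mul_le_mul (Nat.pow_le_pow_right (Nat.succ_pos _) h1.2) (Nat.factorial_le (Nat.mul_le_mul_left 2 h1.2))

end Pool.Agent.MP_4960c7.NS
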