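import Pool.Agent.Lib.MP_4960c7_ag.AR.Defs

/-!
# The Newton polygon of a Weil polynomial in terms of the coefficients of its real Weil polynomial
-/

namespace Pool.Agent.MP_4960c7.NS

open Polynomial Pool.Agent.MP_4960c7.AR

/-- `X^g * pol b (X + q / X)`: the polynomial `∏ (X^2 - β_j X + q)` if `pol b = ∏ (X - β_j)` -/
noncomputable def wp (q : ℕ) {g : ℕ} (b : Fin g → ℤ) : ℤ[X] :=
  (X ^ 2 + C (q : ℤ)) ^ g + ∑ i : Fin g, C (b i) * X ^ (g - (i : ℕ)) * (X ^ 2 + C (q : ℤ)) ^ (i : ℕ)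

/-- `wp q b = X^g * pol b (X + q / X)` -/
theorem wp_spec (q : ℕ) {g : ℕ} (b : Fin g → ℤ) (z : ℂ) (hz : z ≠ 0) :
    aeval z (wp q b) = z ^ g * aeval (z + q / z) (pol b) := by
  have h1 : z * (z + q / z) = z ^ 2 + q := by
    field_simp
  have h2 : ∀ n, z ^ n * (z + q / z) ^ n = (z ^ 2 + q) ^ n := fun n => by rw [← mul_pow, h1]
  unfold wp pol
  simp only [map_add, map_pow, map_sum, map_mul, aeval_X, mul_add, Finset.mul_sum,
    eq_intCast, map_intCast, map_natCast]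
  rw [h2]
  refine congrArg₂ (· + ·) rfl (Finset.sum_congr rfl fun i _ => ?_)
  have h3 : z ^ g = z ^ (g - (i : ℕ)) * z ^ (i : ℕ) := by
    rw [← pow_add, Nat.sub_add_cancel i.2.le]
  rw [h3, ← h2]
  ring

/-- `lam 0, …, lam g` are the values of a convex function with `lam 0 = 0` and all slopes in
`[0, 1/2]`: the left half of a polygon on `[0, 2g]` with `lam (2 g - x) = lam x + g - x`. -/
structure IsPolygon (g : ℕ) (lam : ℕ → ℝ) : Prop where
  zero : lam 0 = 0
  nonneg : 0 ≤ lam 1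
  convex : ∀ K, K + 2 ≤ g → lam (K + 1) - lam K ≤ lam (K + 2) - lam (K + 1)
  last : lam g - lam (g - 1) ≤ 1 / 2

/-- `K` is a vertex: the slopes to the left and to the right of `K` are different (the slope to
the right of `g` is `1` minus the slope to the left of `g`). -/
def IsVertex (g : ℕ) (lam : ℕ → ℝ) (K : ℕ) : Prop :=
  0 < K ∧ ((K < g ∧ lam K - lam (K - 1) < lam (K + 1) - lam K) ∨
    (K = g ∧ lam g - lam (g - 1) < 1 / 2))

/-- The left half of the Newton polygon of `P`, with the `p`-adic valuation that is `1` at `p ^ a`,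
is `lam`: all points `(K, v (coeff (2 g - K)))` are on or above `lam`, and the ones at vertices are
on `lam`. -/
def HasNewton (p a g : ℕ) (lam : ℕ → ℝ) (P : ℤ[X]) : Prop :=
  (∀ K, K ≤ g → P.coeff (2 * g - K) ≠ 0 → (a : ℝ) * lam K ≤ padicValInt p (P.coeff (2 * g - K))) ∧
  (∀ K, K ≤ g → IsVertex g lam K → P.coeff (2 * g - K) ≠ 0 ∧
    (padicValInt p (P.coeff (2 * g - K)) : ℝ) = a * lam K)

/-- the exponent at `b_i` -/
noncomputable def ex (a g : ℕ) (lam : ℕ → ℝ) (i : Fin g) : ℕ := ⌈(a : ℝ) * lam (g - (i : ℕ))⌉₊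

/-- the coefficient of `X ^ (g - K)` in `pol b` -/
private def cf {g : ℕ} (b : Fin g → ℤ) (K : ℕ) : ℤ :=
  if h : 0 < K ∧ K ≤ g then b ⟨g - K, by omega⟩ else 1

private theorem wp_eq (q : ℕ) {g : ℕ} (b : Fin g → ℤ) :
    wp q b = ∑ k ∈ Finset.range (g + 1), C (cf b k) * (X ^ k * (X ^ 2 + C (q : ℤ)) ^ (g - k)) := by
  rw [Finset.sum_range_succ']
  have h0 : C (cf b 0) * (X ^ 0 * (X ^ 2 + C (q : ℤ)) ^ (g - 0)) = (X ^ 2 + C (q : ℤ)) ^ g := by
    simp [cf]
  rw [h0, add_comm]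
  unfold wp
  congr 1
  rw [← Finset.sum_range_reflect, ← Fin.sum_univ_eq_sum_range
    (fun j => C (cf b (g - 1 - j + 1)) * (X ^ (g - 1 - j + 1) * (X ^ 2 + C (q : ℤ)) ^ (g - (g - 1 - j + 1)))) g]
  refine Finset.sum_congr rfl fun i _ => ?_
  have hi := i.2
  have h1 : g - 1 - (i : ℕ) + 1 = g - (i : ℕ) := by omega
  have h2 : g - (g - (i : ℕ)) = (i : ℕ) := by omega
  have h3 : cf b (g - (i : ℕ)) = b i := by
    unfold cf
    rw [dif_pos (by omega)]
    congr 1
    exact Fin.ext h2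
  rw [h1, h2, h3, mul_assoc]

private theorem coeff_term (q g k K : ℕ) (hk : k ≤ g) (hK : K ≤ g) :
    (k = K → (X ^ k * (X ^ 2 + C (q : ℤ)) ^ (g - k) : ℤ[X]).coeff (2 * g - K) = 1) ∧
    (k ≠ K → (∃ m, 0 < m ∧ K = k + 2 * m ∧
      (q : ℤ) ^ m ∣ (X ^ k * (X ^ 2 + C (q : ℤ)) ^ (g - k) : ℤ[X]).coeff (2 * g - K)) ∨
      (X ^ k * (X ^ 2 + C (q : ℤ)) ^ (g - k) : ℤ[X]).coeff (2 * g - K) = 0) := by
  have h1 : (X ^ 2 + C (q : ℤ) : ℤ[X]) ^ (g - k) = expand ℤ 2 ((X + C (q : ℤ)) ^ (g - k)) := by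
    rw [map_pow, map_add, expand_X, expand_C]
  rw [coeff_X_pow_mul', if_pos (by omega), h1, coeff_expand (by norm_num), coeff_X_add_C_pow]
  refine ⟨fun h => ?_, fun h => ?_⟩
  · subst h
    have h2 : 2 * g - k - k = 2 * (g - k) := by omega
    rw [h2, if_pos (dvd_mul_right _ _), Nat.mul_div_cancel_left _ (by norm_num), Nat.sub_self, Nat.choose_self]
    simp
  · by_cases hd : 2 ∣ 2 * g - K - k
    · rw [if_pos hd]
      obtain ⟨n, hn⟩ := hd
      rw [hn, Nat.mul_div_cancel_left _ (by norm_num)]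
      rcases lt_or_gt_of_ne h with hlt | hgt
      · refine Or.inl ⟨g - k - n, by omega, by omega, dvd_mul_right _ _⟩
      · refine Or.inr ?_
        rw [Nat.choose_eq_zero_of_lt (show g - k < n by omega)]
        simp
    · exact Or.inr (if_neg hd)

/-- the triangular relation between the coefficients -/
private theorem wp_coeff (q : ℕ) {g : ℕ} (b : Fin g → ℤ) (K : ℕ) (hK : K ≤ g) (N : ℤ)
    (hN : ∀ m, 0 < m → 2 * m ≤ K → N ∣ cf b (K - 2 * m) * (q : ℤ) ^ m) :
    N ∣ (wp q b).coeff (2 * g - K) - cf b K := by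
  rw [wp_eq, finsetSum_coeff, ← Finset.add_sum_erase _ _ (Finset.mem_range.2 (show K < g + 1 by omega)),
    coeff_C_mul, (coeff_term q g K K hK hK).1 rfl, mul_one, add_sub_cancel_left]
  refine Finset.dvd_sum fun k hk => ?_
  rw [Finset.mem_erase, Finset.mem_range] at hk
  rw [coeff_C_mul]
  rcases (coeff_term q g k K (by omega) hK).2 hk.1 with ⟨m, hm, hm2, hd⟩ | h0
  · have h1 := hN m hm (by omega)
    rw [show K - 2 * m = k by omega] at h1
    exact h1.trans (mul_dvd_mul_left _ hd)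
  · rw [h0, mul_zero]
    exact dvd_zero _

private theorem slope_le {g : ℕ} {lam : ℕ → ℝ} (hl : IsPolygon g lam) :
    ∀ n K, K + 1 + n ≤ g → lam (K + 1) - lam K ≤ lam (K + 1 + n) - lam (K + n) := by
  intro n
  induction n with
  | zero => intro K _; simp
  | succ n ih =>
    intro K hK
    have h1 := ih K (by omega)
    have h2 := hl.convex (K + n) (by omega)
    have e1 : K + 1 + n = K + n + 1 := by ring
    have e2 : K + 1 + (n + 1) = K + n + 2 := by ring
    have e3 : K + (n + 1) = K + n + 1 := by ring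
    rw [e2, e3]
    rw [e1] at h1
    linarith

private theorem slope_half {g : ℕ} {lam : ℕ → ℝ} (hl : IsPolygon g lam) (K : ℕ) (hK : K + 1 ≤ g) :
    lam (K + 1) - lam K ≤ 1 / 2 := by
  have h1 := slope_le hl (g - (K + 1)) K (by omega)
  have h2 := hl.last
  rw [show K + 1 + (g - (K + 1)) = g by omega, show K + (g - (K + 1)) = g - 1 by omega] at h1
  linarith

/-- `lam (K + n) - lam K ≤ n * s` if all slopes on the left of `K + n` are at most `s` -/
private theorem sum_le {g : ℕ} {lam : ℕ → ℝ} (hl : IsPolygon g lam) (s : ℝ) :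
    ∀ n K, K + n ≤ g → (0 < n → lam (K + n) - lam (K + n - 1) ≤ s) → lam (K + n) - lam K ≤ n * s := by
  intro n
  induction n with
  | zero => intro K _ _; simp
  | succ n ih =>
    intro K hK hs
    have h1 := hs (by omega)
    rw [show K + (n + 1) - 1 = K + n by omega] at h1
    have h2 := ih K (by omega) (fun hn => by
      have h3 := hl.convex (K + n - 1) (by omega)
      rw [show K + n - 1 + 1 = K + n by omega, show K + n - 1 + 2 = K + (n + 1) by omega] at h3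
      linarith)
    push_cast
    linarith

private theorem lam_nonneg {g : ℕ} {lam : ℕ → ℝ} (hl : IsPolygon g lam) : ∀ K, K ≤ g → 0 ≤ lam K := by
  intro K
  induction K with
  | zero => intro _; rw [hl.zero]
  | succ K ih =>
    intro hK
    have h1 := ih (by omega)
    have h2 := slope_le hl K 0 (by omega)
    have h3 := hl.nonneg
    have h4 := hl.zero
    rw [show 0 + 1 + K = K + 1 by ring, zero_add, zero_add, h4] at h2
    linarith

/-- the exponents as a function of `K` -/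
private noncomputable def ee (a : ℕ) (lam : ℕ → ℝ) (K : ℕ) : ℕ := ⌈(a : ℝ) * lam K⌉₊

private theorem ee_le {a g : ℕ} {lam : ℕ → ℝ} (hl : IsPolygon g lam) (K m : ℕ) (hK : K ≤ g) (hm : 2 * m ≤ K) :
    ee a lam K ≤ ee a lam (K - 2 * m) + a * m := by
  unfold ee
  rw [Nat.ceil_le]
  push_cast
  have h1 := sum_le hl (1 / 2) (2 * m) (K - 2 * m) (by omega) (fun h => by
    have h2 := slope_half hl (K - 1) (by omega)
    rw [show K - 1 + 1 = K by omega] at h2
    rw [show K - 2 * m + 2 * m = K by omega]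
    exact h2)
  rw [show K - 2 * m + 2 * m = K by omega] at h1
  push_cast at h1
  have h2 := Nat.le_ceil ((a : ℝ) * lam (K - 2 * m))
  have ha : (0 : ℝ) ≤ a := Nat.cast_nonneg a
  nlinarith

private theorem ee_lt {a g : ℕ} (ha : 0 < a) {lam : ℕ → ℝ} (hl : IsPolygon g lam) (K m : ℕ) (hK : K ≤ g) (hm : 2 * m ≤ K)
    (hm0 : 0 < m) (hv : IsVertex g lam K) (hint : ∃ n : ℕ, (a : ℝ) * lam K = n) :
    ee a lam K + 1 ≤ ee a lam (K - 2 * m) + a * m := by
  obtain ⟨n, hn⟩ := hint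
  have h0 : ee a lam K = n := by
    unfold ee
    rw [hn, Nat.ceil_natCast]
  have hs : lam K - lam (K - 1) < 1 / 2 := by
    rcases hv.2 with ⟨h1, h2⟩ | ⟨h1, h2⟩
    · have h3 := slope_half hl K (by omega)
      linarith
    · rw [h1]
      exact h2
  have h1 := sum_le hl (lam K - lam (K - 1)) (2 * m) (K - 2 * m) (by omega) (fun _ => by
    rw [show K - 2 * m + 2 * m = K by omega])
  rw [show K - 2 * m + 2 * m = K by omega] at h1
  push_cast at h1
  have h2 := Nat.le_ceil ((a : ℝ) * lam (K - 2 * m))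
  have ha' : (0 : ℝ) < a := by exact_mod_cast ha
  have hm' : (0 : ℝ) < m := by exact_mod_cast hm0
  have h3 : (n : ℝ) < (ee a lam (K - 2 * m) : ℝ) + a * m := by
    unfold ee
    rw [← hn]
    have h4 : lam K - lam (K - 2 * m) < m := by nlinarith
    have h5 : (a : ℝ) * (lam K - lam (K - 2 * m)) < a * m := mul_lt_mul_of_pos_left h4 ha'
    linarith
  have h4 : n < ee a lam (K - 2 * m) + a * m := by exact_mod_cast h3
  omega

/-- all coefficients `c_K` are divisible by `p ^ ee K` iff all coefficients of `wp` are -/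
private theorem dvd_iff {p a g : ℕ} {lam : ℕ → ℝ} (hl : IsPolygon g lam) (b : Fin g → ℤ) :
    (∀ K, K ≤ g → (p : ℤ) ^ ee a lam K ∣ cf b K) ↔
      ∀ K, K ≤ g → (p : ℤ) ^ ee a lam K ∣ (wp (p ^ a) b).coeff (2 * g - K) := by
  have key : ∀ K, K ≤ g → (∀ j, j < K → (p : ℤ) ^ ee a lam j ∣ cf b j) →
      (p : ℤ) ^ ee a lam K ∣ (wp (p ^ a) b).coeff (2 * g - K) - cf b K := by
    intro K hK hj
    refine wp_coeff (p ^ a) b K hK _ fun m hm hmK => ?_
    have h1 := hj (K - 2 * m) (by omega)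
    have h2 : (p : ℤ) ^ ee a lam K ∣ (p : ℤ) ^ ee a lam (K - 2 * m) * (((p ^ a : ℕ) : ℤ)) ^ m := by
      push_cast
      rw [← pow_mul, ← pow_add]
      exact pow_dvd_pow _ (ee_le hl K m hK hmK)
    exact h2.trans (mul_dvd_mul_right h1 _)
  constructor
  · intro h K hK
    have h1 := key K hK fun j hj => h j (by omega)
    have h2 := dvd_add h1 (h K hK)
    rwa [sub_add_cancel] at h2
  · intro h K
    induction K using Nat.strong_induction_on with
    | _ K ih =>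
      intro hK
      have h1 := key K hK fun j hj => ih j hj (by omega)
      exact (dvd_sub_comm.1 h1 |> fun h2 => (dvd_iff_dvd_of_dvd_sub h2).2 (h K hK))

private theorem vertex_iff {p a g : ℕ} (ha : 0 < a) {lam : ℕ → ℝ} (hl : IsPolygon g lam) (b : Fin g → ℤ)
    (hd : ∀ K, K ≤ g → (p : ℤ) ^ ee a lam K ∣ cf b K) (K : ℕ) (hK : K ≤ g) (hv : IsVertex g lam K)
    (hint : ∃ n : ℕ, (a : ℝ) * lam K = n) :
    (p : ℤ) ^ (ee a lam K + 1) ∣ cf b K ↔ (p : ℤ) ^ (ee a lam K + 1) ∣ (wp (p ^ a) b).coeff (2 * g - K) := by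
  have h1 : (p : ℤ) ^ (ee a lam K + 1) ∣ (wp (p ^ a) b).coeff (2 * g - K) - cf b K := by
    refine wp_coeff (p ^ a) b K hK _ fun m hm hmK => ?_
    have h1 := hd (K - 2 * m) (by omega)
    have h2 : (p : ℤ) ^ (ee a lam K + 1) ∣ (p : ℤ) ^ ee a lam (K - 2 * m) * (((p ^ a : ℕ) : ℤ)) ^ m := by
      push_cast
      rw [← pow_mul, ← pow_add]
      exact pow_dvd_pow _ (ee_lt ha hl K m hK hmK hm hv hint)
    exact h2.trans (mul_dvd_mul_right h1 _)
  exact (dvd_iff_dvd_of_dvd_sub (dvd_sub_comm.1 h1))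

private theorem cf_eq {g : ℕ} (b : Fin g → ℤ) (i : Fin g) : cf b (g - (i : ℕ)) = b i := by
  have hi := i.2
  unfold cf
  rw [dif_pos (by omega)]
  congr 1
  exact Fin.ext (show g - (g - (i : ℕ)) = (i : ℕ) by omega)

private theorem dvd_ex_iff {p a g : ℕ} {lam : ℕ → ℝ} (hl : IsPolygon g lam) (b : Fin g → ℤ) :
    (∀ i, (p : ℤ) ^ ex a g lam i ∣ b i) ↔ ∀ K, K ≤ g → (p : ℤ) ^ ee a lam K ∣ cf b K := by
  constructor
  · intro h K hK
    rcases Nat.eq_zero_or_pos K with h0 | h0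
    · subst h0
      have h1 : ee a lam 0 = 0 := by
        unfold ee
        rw [hl.zero, mul_zero, Nat.ceil_zero]
      rw [h1, pow_zero]
      exact one_dvd _
    · have h1 := h ⟨g - K, by omega⟩
      rw [← cf_eq b ⟨g - K, by omega⟩] at h1
      unfold ex at h1
      have h2 : g - (g - K) = K := by omega
      simp only [h2] at h1
      exact h1
  · intro h i
    have h1 := h (g - (i : ℕ)) (by omega)
    rw [cf_eq] at h1
    exact h1

/-- **The Newton polygon of `wp` in terms of the coefficients of the real Weil polynomial.** -/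
theorem newt_iff {p a g : ℕ} (hp : p.Prime) (ha : 0 < a) {lam : ℕ → ℝ} (hl : IsPolygon g lam)
    (hint : ∀ K, K ≤ g → IsVertex g lam K → ∃ n : ℕ, (a : ℝ) * lam K = n) (b : Fin g → ℤ) :
    HasNewton p a g lam (wp (p ^ a) b) ↔ (∀ i, (p : ℤ) ^ ex a g lam i ∣ b i) ∧
      ∀ i : Fin g, IsVertex g lam (g - (i : ℕ)) → ¬ (p : ℤ) ^ (ex a g lam i + 1) ∣ b i := by
  have : Fact p.Prime := ⟨hp⟩
  have h1 : (∀ K, K ≤ g → (wp (p ^ a) b).coeff (2 * g - K) ≠ 0 →
      (a : ℝ) * lam K ≤ padicValInt p ((wp (p ^ a) b).coeff (2 * g - K))) ↔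
      ∀ K, K ≤ g → (p : ℤ) ^ ee a lam K ∣ (wp (p ^ a) b).coeff (2 * g - K) := by
    refine forall_congr' fun K => forall_congr' fun hK => ?_
    rw [padicValInt_dvd_iff]
    unfold ee
    rw [Nat.ceil_le]
    tauto
  unfold HasNewton
  rw [h1, ← dvd_iff hl b, ← dvd_ex_iff hl b]
  refine and_congr_right fun hd => ?_
  have hd' := (dvd_ex_iff hl b).1 hd
  have hd2 := (dvd_iff hl b).1 hd'
  have h2 : ∀ K, K ≤ g → IsVertex g lam K → (((wp (p ^ a) b).coeff (2 * g - K) ≠ 0 ∧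
      (padicValInt p ((wp (p ^ a) b).coeff (2 * g - K)) : ℝ) = a * lam K) ↔
      ¬ (p : ℤ) ^ (ee a lam K + 1) ∣ cf b K) := by
    intro K hK hv
    rw [vertex_iff ha hl b hd' K hK hv (hint K hK hv), padicValInt_dvd_iff]
    obtain ⟨n, hn⟩ := hint K hK hv
    have h3 : ee a lam K = n := by
      unfold ee
      rw [hn, Nat.ceil_natCast]
    have h4 := hd2 K hK
    rw [padicValInt_dvd_iff, h3] at h4
    rw [hn, h3]
    constructor
    · rintro ⟨h5, h6⟩
      have h7 : padicValInt p ((wp (p ^ a) b).coeff (2 * g - K)) = n := by exact_mod_cast h6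
      rintro (h8 | h8)
      · exact h5 h8
      · omega
    · intro h5
      push Not at h5
      refine ⟨h5.1, ?_⟩
      have h6 : padicValInt p ((wp (p ^ a) b).coeff (2 * g - K)) = n := by
        rcases h4 with h4 | h4
        · exact absurd h4 h5.1
        · omega
      exact_mod_cast h6
  constructor
  · intro h i hv
    have h3 := (h2 (g - (i : ℕ)) (by omega) hv).1 (h (g - (i : ℕ)) (by omega) hv)
    rw [cf_eq] at h3
    exact h3
  · intro h K hK hv
    refine (h2 K hK hv).2 ?_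
    have hK0 := hv.1
    have h3 := h ⟨g - K, by omega⟩
    have h4 : g - (g - K) = K := by omega
    rw [← cf_eq b ⟨g - K, by omega⟩] at h3
    unfold ex at h3
    simp only [h4] at h3
    exact h3 hv

/-- The sides of the stratum of `lam` are at least `M` if `M * p ≤ p ^ (a * (1/2 - lam 1))`. -/
theorem ex_small {p a g : ℕ} (hp : 0 < p) {lam : ℕ → ℝ} (hl : IsPolygon g lam) (M : ℕ)
    (hM : (M : ℝ) * p ≤ (p : ℝ) ^ ((a : ℝ) * (1 / 2 - lam 1))) (i : Fin g) :
    M * p ^ ex a g lam i ≤ tt (p ^ a) ^ (g - (i : ℕ)) := by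
  have hi := i.2
  obtain ⟨K, hK⟩ : ∃ K, K = g - (i : ℕ) := ⟨_, rfl⟩
  unfold ex
  rw [← hK]
  have hp0 : (0 : ℝ) < p := by exact_mod_cast hp
  have hp1 : (1 : ℝ) ≤ p := by exact_mod_cast hp
  have ha0 : (0 : ℝ) ≤ a := Nat.cast_nonneg a
  have hlam := lam_nonneg hl K (by omega)
  have h1 : ((p : ℝ) ^ ⌈(a : ℝ) * lam K⌉₊ : ℝ) ≤ (p : ℝ) ^ ((a : ℝ) * lam K) * p := by
    rw [← Real.rpow_natCast]
    calc (p : ℝ) ^ ((⌈(a : ℝ) * lam K⌉₊ : ℕ) : ℝ) ≤ (p : ℝ) ^ ((a : ℝ) * lam K + 1) :=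
          Real.rpow_le_rpow_of_exponent_le hp1 (Nat.ceil_lt_add_one (mul_nonneg ha0 hlam)).le
      _ = _ := by rw [Real.rpow_add hp0, Real.rpow_one]
  have h2 : (a : ℝ) * (1 / 2 - lam 1) + (a : ℝ) * lam K ≤ (a : ℝ) * (1 / 2) * K := by
    have h3 := sum_le hl (1 / 2) (K - 1) 1 (by omega) (fun _ => by
      have h4 := slope_half hl (K - 1) (by omega)
      rw [show K - 1 + 1 = K by omega] at h4
      rw [show 1 + (K - 1) = K by omega]
      exact h4)
    rw [show 1 + (K - 1) = K by omega, Nat.cast_sub (by omega)] at h3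
    push_cast at h3
    nlinarith
  have h5 : (p : ℝ) ^ ((a : ℝ) * (1 / 2)) ≤ (tt (p ^ a) : ℝ) := by
    rw [Real.rpow_mul hp0.le, Real.rpow_natCast, ← Real.sqrt_eq_rpow]
    refine Real.sqrt_le_iff.2 ⟨by positivity, ?_⟩
    unfold tt
    have h6 := Nat.lt_succ_sqrt (p ^ a)
    have h7 : p ^ a ≤ (Nat.sqrt (p ^ a) + 1) ^ 2 := by
      rw [pow_two]
      exact h6.le
    exact_mod_cast h7
  have h8 : (M : ℝ) * (p : ℝ) ^ ⌈(a : ℝ) * lam K⌉₊ ≤ (tt (p ^ a) : ℝ) ^ K := by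
    calc (M : ℝ) * (p : ℝ) ^ ⌈(a : ℝ) * lam K⌉₊ ≤ M * ((p : ℝ) ^ ((a : ℝ) * lam K) * p) :=
          mul_le_mul_of_nonneg_left h1 (Nat.cast_nonneg M)
      _ = (M : ℝ) * p * (p : ℝ) ^ ((a : ℝ) * lam K) := by ring
      _ ≤ (p : ℝ) ^ ((a : ℝ) * (1 / 2 - lam 1)) * (p : ℝ) ^ ((a : ℝ) * lam K) :=
          mul_le_mul_of_nonneg_right hM (Real.rpow_nonneg hp0.le _)
      _ = (p : ℝ) ^ ((a : ℝ) * (1 / 2 - lam 1) + (a : ℝ) * lam K) := (Real.rpow_add hp0 _ _).symm
      _ ≤ (p : ℝ) ^ ((a : ℝ) * (1 / 2) * K) := Real.rpow_le_rpow_of_exponent_le hp1 h2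
      _ = ((p : ℝ) ^ ((a : ℝ) * (1 / 2))) ^ K := by rw [Real.rpow_mul hp0.le, Real.rpow_natCast]
      _ ≤ _ := pow_le_pow_left₀ (Real.rpow_nonneg hp0.le _) h5 K
  exact_mod_cast h8

end Pool.Agent.MP_4960c7.NS
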