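import Pool.Agent.Lib.MP_4960c7_ag.AR.SSiv
import Pool.Agent.Lib.MP_4960c7_ag.AR.CSing
import Pool.Agent.Lib.MP_4960c7_ag.NS.LowS

/-!
# The parameters of the sieve in a stratum
-/

namespace Pool.Agent.MP_4960c7.NS

open Polynomial Pool.Agent.MP_4960c7.AR

/-- conditions which hold for all large `x` -/
theorem largeM_aux (N C : ℝ) : ∀ᶠ x : ℝ in Filter.atTop,
    1 ≤ x ∧ x ^ (0.32 : ℝ) + 1 ≤ x ^ (1 / 3 : ℝ) ∧ N ≤ x ^ (0.32 : ℝ) ∧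
      C ≤ x ^ (0.3 - 2 / 7 : ℝ) := by
  have h1 := tendsto_rpow_atTop (show (0 : ℝ) < 1 / 3 - 0.32 by norm_num)
  have h2 := tendsto_rpow_atTop (show (0 : ℝ) < 0.32 by norm_num)
  have h3 := tendsto_rpow_atTop (show (0 : ℝ) < 0.3 - 2 / 7 by norm_num)
  filter_upwards [Filter.eventually_ge_atTop 1, h1.eventually_ge_atTop 2, h2.eventually_ge_atTop N,
    h3.eventually_ge_atTop C] with x hx hx1 hx2 hx3
  refine ⟨hx, ?_, hx2, hx3⟩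
  have h4 : x ^ (1 / 3 : ℝ) = x ^ (0.32 : ℝ) * x ^ (1 / 3 - 0.32 : ℝ) := by
    rw [← Real.rpow_add (by linarith)]
    norm_num
  have h5 : (1 : ℝ) ≤ x ^ (0.32 : ℝ) := Real.one_le_rpow hx (by norm_num)
  rw [h4]
  nlinarith

/-- the parameters of the sieve for large `M` -/
theorem paramsM (S : ℕ) (C : ℝ) : ∃ M₀ : ℕ, ∀ M : ℕ, M₀ ≤ M → ∀ p : ℕ, ∃ (T : Finset ℕ) (Q : ℕ),
    (∀ ℓ ∈ T, ℓ.Prime ∧ S ≤ ℓ ∧ ℓ ≠ p ∧ ℓ ≤ Q) ∧ Q ^ 3 ≤ M ∧ (M : ℝ) ^ (0.3 : ℝ) ≤ T.card ∧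
      (M : ℝ) ^ (0.3 : ℝ) ≤ Q ∧ (M : ℝ) ^ (0.3 : ℝ) ≤ M ∧ C ≤ (M : ℝ) ^ (0.3 - 2 / 7 : ℝ) ∧
        (1 : ℝ) ≤ M := by
  obtain ⟨N₀, hN₀⟩ := Filter.eventually_atTop.1 (pi_lower ((S : ℝ) + 1))
  obtain ⟨x₀, hx₀⟩ := Filter.eventually_atTop.1 (largeM_aux N₀ C)
  obtain ⟨M₀, hM₀⟩ := exists_nat_ge x₀
  refine ⟨M₀, fun M hM p => ?_⟩
  have hqx : x₀ ≤ (M : ℝ) := hM₀.trans (by exact_mod_cast hM)
  obtain ⟨hx1, hx2, hx3, hx4⟩ := hx₀ M hqx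
  have hqr : (0 : ℝ) < M := by linarith
  set x : ℝ := (M : ℝ) with hxdef
  obtain ⟨Q, hQdef⟩ : ∃ Q : ℕ, Q = ⌊x ^ (1 / 3 : ℝ)⌋₊ := ⟨_, rfl⟩
  have hQle : (Q : ℝ) ≤ x ^ (1 / 3 : ℝ) := by
    rw [hQdef]
    exact Nat.floor_le (by positivity)
  have hQ3 : Q ^ 3 ≤ M := by
    have h1 : (Q : ℝ) ^ 3 ≤ (x ^ (1 / 3 : ℝ)) ^ 3 := pow_le_pow_left₀ (by positivity) hQle 3
    have h2 : (x ^ (1 / 3 : ℝ)) ^ 3 = x := by
      rw [← Real.rpow_natCast, ← Real.rpow_mul hqr.le]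
      norm_num
    rw [h2, hxdef] at h1
    exact_mod_cast h1
  have hQge : x ^ (0.32 : ℝ) ≤ Q := by
    have h1 : x ^ (1 / 3 : ℝ) < Q + 1 := by
      rw [hQdef]
      exact Nat.lt_floor_add_one _
    linarith
  have hQN : N₀ ≤ Q := by
    have : (N₀ : ℝ) ≤ Q := hx3.trans hQge
    exact_mod_cast this
  have hpow : x ^ (0.3 : ℝ) ≤ x ^ (0.32 : ℝ) := Real.rpow_le_rpow_of_exponent_le hx1 (by norm_num)
  have hQ15 : x ^ (0.3 : ℝ) ≤ Q := hpow.trans hQge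
  have ht15 : x ^ (0.3 : ℝ) ≤ x := by
    calc x ^ (0.3 : ℝ) ≤ x ^ (1 : ℝ) := Real.rpow_le_rpow_of_exponent_le hx1 (by norm_num)
      _ = x := Real.rpow_one x
  obtain ⟨T, hT, hTc⟩ := exists_primes S Q p
  have hT15 : x ^ (0.3 : ℝ) ≤ T.card := by
    have h1 := hN₀ Q hQN
    have h2 : (Nat.primeCounting Q : ℝ) ≤ T.card + S + 1 := by exact_mod_cast hTc
    have h3 : x ^ (0.3 : ℝ) ≤ (Q : ℝ) ^ (0.95 : ℝ) := by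
      calc x ^ (0.3 : ℝ) ≤ x ^ (0.32 * 0.95 : ℝ) :=
            Real.rpow_le_rpow_of_exponent_le hx1 (by norm_num)
        _ = (x ^ (0.32 : ℝ)) ^ (0.95 : ℝ) := by rw [← Real.rpow_mul hqr.le]
        _ ≤ (Q : ℝ) ^ (0.95 : ℝ) := Real.rpow_le_rpow (by positivity) hQge (by norm_num)
    linarith
  exact ⟨T, Q, hT, hQ3, hT15, hQ15, ht15, hx4, hx1⟩

/-- the size of the box of a stratum -/
noncomputable def VS (q p : ℕ) {g : ℕ} (e : Fin g → ℕ) : ℝ :=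
  ∏ i : Fin g, ((tt q : ℝ) ^ (g - (i : ℕ)) / (p : ℝ) ^ e i)

theorem VS_pos {q p : ℕ} (hp : 0 < p) {g : ℕ} (e : Fin g → ℕ) : 0 < VS q p e := by
  have : (0 : ℝ) < p := by exact_mod_cast hp
  have h2 : (0 : ℝ) < tt q := by
    unfold tt
    positivity
  exact Finset.prod_pos fun i _ => by positivity

theorem card_box_strat {q p M : ℕ} (hp : 0 < p) (hM : 0 < M) {g : ℕ} (e : Fin g → ℕ)
    (he : ∀ i, M * p ^ e i ≤ tt q ^ (g - (i : ℕ))) :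
    ∏ i : Fin g, (2 * ((bd q g i / p ^ e i : ℕ) : ℝ) + 1) ≤ (3 * 4 ^ g) ^ g * VS q p e := by
  have hpr : (0 : ℝ) < p := by exact_mod_cast hp
  have h1 : ∀ i : Fin g, 2 * ((bd q g i / p ^ e i : ℕ) : ℝ) + 1 ≤
      (3 * 4 ^ g) * ((tt q : ℝ) ^ (g - (i : ℕ)) / (p : ℝ) ^ e i) := by
    intro i
    have h2 : ((bd q g i / p ^ e i : ℕ) : ℝ) ≤ (bd q g i : ℝ) / ((p ^ e i : ℕ) : ℝ) := Nat.cast_div_le
    have h3 : (bd q g i : ℝ) / ((p ^ e i : ℕ) : ℝ) = 4 ^ g * ((tt q : ℝ) ^ (g - (i : ℕ)) / (p : ℝ) ^ e i) := by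
      unfold bd
      push_cast
      ring
    have hpe : (0 : ℝ) < (p : ℝ) ^ e i := pow_pos hpr _
    have h4 : (1 : ℝ) ≤ (tt q : ℝ) ^ (g - (i : ℕ)) / (p : ℝ) ^ e i := by
      rw [le_div_iff₀ hpe, one_mul]
      have h5 : p ^ e i ≤ tt q ^ (g - (i : ℕ)) := (Nat.le_mul_of_pos_left _ hM).trans (he i)
      exact_mod_cast h5
    have h5 : (1 : ℝ) ≤ 4 ^ g := one_le_pow₀ (by norm_num)
    rw [h3] at h2
    nlinarith [mul_le_mul h5 h4 zero_le_one (by positivity : (0 : ℝ) ≤ 4 ^ g)]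
  calc ∏ i : Fin g, (2 * ((bd q g i / p ^ e i : ℕ) : ℝ) + 1)
      ≤ ∏ i : Fin g, ((3 * 4 ^ g) * ((tt q : ℝ) ^ (g - (i : ℕ)) / (p : ℝ) ^ e i)) :=
        Finset.prod_le_prod (fun i _ => by positivity) fun i _ => h1 i
    _ = (3 * 4 ^ g) ^ g * VS q p e := by
        rw [Finset.prod_mul_distrib, Finset.prod_const, Finset.card_univ, Fintype.card_fin]
        rfl

theorem le_bd_of {q p M Q : ℕ} {g : ℕ} {e : Fin g → ℕ} (hQ : Q ^ 3 ≤ M)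
    (he : ∀ i, M * p ^ e i ≤ tt q ^ (g - (i : ℕ))) (i : Fin g) : Q ^ 3 * p ^ e i ≤ bd q g i := by
  calc Q ^ 3 * p ^ e i ≤ M * p ^ e i := Nat.mul_le_mul_right _ hQ
    _ ≤ tt q ^ (g - (i : ℕ)) := he i
    _ ≤ bd q g i := by
        unfold bd
        exact Nat.le_mul_of_pos_left _ (by positivity)

end Pool.Agent.MP_4960c7.NS
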